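import Mathlib

/-!
Basic facts about the Ramsey numbers R(3,s) in the form of the statement S09229.
`TF G` : G has no triangle; `Ind G A` : the finset A is independent.
-/

set_option autoImplicit false

namespace Pool.MP65cef3.R3

open Finset

/-- triangle-free -/
def TF {V : Type*} (G : SimpleGraph V) : Prop :=
  ∀ a b c : V, G.Adj a b → G.Adj b c → G.Adj a c → False

/-- independent finset -/
def Ind {V : Type*} (G : SimpleGraph V) (A : Finset V) : Prop :=
  ∀ x ∈ A, ∀ y ∈ A, ¬ G.Adj x y

theorem Ind.mono {V : Type*} {G : SimpleGraph V} {A B : Finset V} (h : Ind G B) (hAB : A ⊆ B) :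
    Ind G A := fun x hx y hy => h x (hAB hx) y (hAB hy)

theorem tf_iff {V : Type*} (G : SimpleGraph V) : G.CliqueFree 3 ↔ TF G := by
  classical
  constructor
  · intro h a b c hab hbc hac
    exact h {a, b, c} (SimpleGraph.is3Clique_iff.mpr ⟨a, b, c, hab, hac, hbc, rfl⟩)
  · intro h t ht
    obtain ⟨a, b, c, hab, hac, hbc, _⟩ := SimpleGraph.is3Clique_iff.mp ht
    exact h a b c hab hbc hac

theorem ind_iff {V : Type*} (G : SimpleGraph V) (s : ℕ) :
    Gᶜ.CliqueFree s ↔ ∀ A : Finset V, Ind G A → A.card ≠ s := by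
  classical
  constructor
  · intro h A hA hc
    refine h A ⟨?_, hc⟩
    intro x hx y hy hxy
    rw [SimpleGraph.compl_adj]
    exact ⟨hxy, hA x hx y hy⟩
  · intro h t ht
    refine h t ?_ ht.card_eq
    intro x hx y hy hadj
    have hne : x ≠ y := G.ne_of_adj hadj
    have := ht.isClique hx hy hne
    rw [SimpleGraph.compl_adj] at this
    exact this.2 hadj

/-- all independent finsets have fewer than `s` elements -/
theorem ind_iff' {V : Type*} (G : SimpleGraph V) (s : ℕ) :
    Gᶜ.CliqueFree s ↔ ∀ A : Finset V, Ind G A → A.card < s := by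
  classical
  rw [ind_iff]
  constructor
  · intro h A hA
    by_contra hc
    push Not at hc
    obtain ⟨B, hB, hBc⟩ := Finset.exists_subset_card_eq hc
    exact h B (hA.mono hB) hBc
  · intro h A hA hc
    have := h A hA
    omega

/-- the set whose infimum is R(3,s) -/
def RSet (s : ℕ) : Set ℕ :=
  {n : ℕ | ∀ G : SimpleGraph (Fin n), ¬ G.CliqueFree 3 ∨ ¬ Gᶜ.CliqueFree s}

/-- greedy: in a triangle-free graph every set of `s * s` vertices contains an independent
`s`-set -/
theorem greedy {V : Type*} [DecidableEq V] (G : SimpleGraph V) (hG : TF G) :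
    ∀ (s : ℕ) (A : Finset V), s * s ≤ A.card → ∃ B ⊆ A, Ind G B ∧ B.card = s := by
  classical
  intro s
  induction s with
  | zero =>
    intro A _
    exact ⟨∅, by simp, by intro x hx; simp at hx, rfl⟩
  | succ s ih =>
    intro A hA
    have hpos : 0 < A.card := by nlinarith
    obtain ⟨v, hv⟩ := Finset.card_pos.mp hpos
    by_cases hN : s + 1 ≤ (A.filter (fun x => G.Adj v x)).card
    · obtain ⟨B, hB, hBc⟩ := Finset.exists_subset_card_eq hN
      refine ⟨B, hB.trans (Finset.filter_subset _ _), ?_, hBc⟩
      intro x hx y hy hxy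
      have h1 := (Finset.mem_filter.mp (hB hx)).2
      have h2 := (Finset.mem_filter.mp (hB hy)).2
      exact hG v x y h1 hxy h2
    · push Not at hN
      have hcard : s * s ≤ ((A.filter (fun x => ¬ G.Adj v x)).erase v).card := by
        have h1 := Finset.card_filter_add_card_filter_not (s := A) (fun x => G.Adj v x)
        have h2 := Finset.pred_card_le_card_erase (s := A.filter (fun x => ¬ G.Adj v x)) (a := v)
        have h3 : (s + 1) * (s + 1) = s * s + 2 * s + 1 := by ring
        omega
      obtain ⟨B, hB, hBi, hBc⟩ := ih _ hcard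
      have hvB : v ∉ B := by
        intro h
        exact (Finset.mem_erase.mp (hB h)).1 rfl
      refine ⟨insert v B, ?_, ?_, ?_⟩
      · intro x hx
        rcases Finset.mem_insert.mp hx with rfl | hx
        · exact hv
        · exact (Finset.mem_filter.mp (Finset.mem_erase.mp (hB hx)).2).1
      · intro x hx y hy hxy
        rcases Finset.mem_insert.mp hx with hxv | hxB
        · rcases Finset.mem_insert.mp hy with hyv | hyB
          · rw [hxv, hyv] at hxy
            exact G.irrefl hxy
          · rw [hxv] at hxy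
            exact (Finset.mem_filter.mp (Finset.mem_erase.mp (hB hyB)).2).2 hxy
        · rcases Finset.mem_insert.mp hy with hyv | hyB
          · rw [hyv] at hxy
            exact (Finset.mem_filter.mp (Finset.mem_erase.mp (hB hxB)).2).2 hxy.symm
          · exact hBi x hxB y hyB hxy
      · rw [Finset.card_insert_of_notMem hvB, hBc]

theorem rset_nonempty (s : ℕ) : (RSet s).Nonempty := by
  classical
  refine ⟨s * s, ?_⟩
  intro G
  by_contra h
  push Not at h
  obtain ⟨h1, h2⟩ := h
  rw [tf_iff] at h1
  rw [ind_iff'] at h2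
  obtain ⟨B, _, hB, hBc⟩ := greedy G h1 s Finset.univ (by simp)
  have := h2 B hB
  omega

theorem rset_up {s n m : ℕ} (hn : n ∈ RSet s) (hnm : n ≤ m) : m ∈ RSet s := by
  classical
  intro G
  by_contra h
  push Not at h
  obtain ⟨h1, h2⟩ := h
  rw [tf_iff] at h1
  rw [ind_iff'] at h2
  have hc := hn (G.comap (Fin.castLE hnm))
  rw [tf_iff, ind_iff'] at hc
  rcases hc with hc | hc
  · apply hc
    intro a b c hab hbc hac
    exact h1 _ _ _ hab hbc hac
  · apply hc
    intro A hA
    have h3 := h2 (A.map (Fin.castLEEmb hnm)) (by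
      intro x hx y hy hxy
      obtain ⟨x', hx', rfl⟩ := Finset.mem_map.mp hx
      obtain ⟨y', hy', rfl⟩ := Finset.mem_map.mp hy
      exact hA x' hx' y' hy' hxy)
    rwa [Finset.card_map] at h3

/-- lower bound: a triangle-free graph on `N` vertices without independent `s`-set shows
`N < R(3,s)` -/
theorem lower {s : ℕ} {V : Type*} [Fintype V] (G : SimpleGraph V) (h1 : TF G)
    (h2 : ∀ A : Finset V, Ind G A → A.card < s) : Fintype.card V < sInf (RSet s) := by
  classical
  by_contra hc
  push Not at hc
  have hmem : Fintype.card V ∈ RSet s := rset_up (Nat.sInf_mem (rset_nonempty s)) hc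
  let e := Fintype.equivFin V
  have hx := hmem (G.comap e.symm)
  rw [tf_iff, ind_iff'] at hx
  rcases hx with hx | hx
  · apply hx
    intro a b c hab hbc hac
    exact h1 _ _ _ hab hbc hac
  · apply hx
    intro A hA
    have h3 := h2 (A.map e.symm.toEmbedding) (by
      intro x hx y hy hxy
      obtain ⟨x', hx', rfl⟩ := Finset.mem_map.mp hx
      obtain ⟨y', hy', rfl⟩ := Finset.mem_map.mp hy
      exact hA x' hx' y' hy' hxy)
    rwa [Finset.card_map] at h3

/-- extremal graphs exist -/
theorem extremal {s n : ℕ} (hn : n < sInf (RSet s)) :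
    ∃ G : SimpleGraph (Fin n), TF G ∧ ∀ A : Finset (Fin n), Ind G A → A.card < s := by
  classical
  have h := Nat.notMem_of_lt_sInf hn
  simp only [RSet, Set.mem_setOf_eq] at h
  push Not at h
  obtain ⟨G, h1, h2⟩ := h
  rw [tf_iff] at h1
  rw [ind_iff'] at h2
  exact ⟨G, h1, h2⟩

/-- `K_{3,3}` : `R(3,s) ≥ 7` for `s ≥ 4` -/
theorem seven {s : ℕ} (hs : 4 ≤ s) : 7 ≤ sInf (RSet s) := by
  classical
  let G : SimpleGraph (Bool × Fin 3) :=
    { Adj := fun x y => x.1 ≠ y.1
      symm := ⟨fun x y h => h.symm⟩
      loopless := ⟨fun x h => h rfl⟩ }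
  have h := lower (s := s) G (by
    intro a b c hab hbc hac
    have hab' : a.1 ≠ b.1 := hab
    have hbc' : b.1 ≠ c.1 := hbc
    have hac' : a.1 ≠ c.1 := hac
    revert hab' hbc' hac'
    rcases a.1 with _ | _ <;> rcases b.1 with _ | _ <;> rcases c.1 with _ | _ <;> simp) (by
    intro A hA
    have h1 : A.card ≤ 3 := by
      rcases A.eq_empty_or_nonempty with h0 | ⟨x, hx⟩
      · rw [h0]; simp
      · have hsub : A ⊆ Finset.univ.image (fun j : Fin 3 => ((x.1, j) : Bool × Fin 3)) := by
          intro y hy
          have h2 : ¬ x.1 ≠ y.1 := hA x hx y hy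
          push Not at h2
          rw [Finset.mem_image]
          exact ⟨y.2, Finset.mem_univ _, by rw [h2]⟩
        calc A.card ≤ _ := Finset.card_le_card hsub
          _ ≤ _ := Finset.card_image_le
          _ = 3 := by simp
    omega)
  have hc : Fintype.card (Bool × Fin 3) = 6 := by simp
  omega

end Pool.MP65cef3.R3
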