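import Mathlib
import Pool.Agent.Lib.MP_65cef3_co.R3

/-!
Four new vertices forming a 4-cycle can always be attached: `R(3,s+1) ≥ R(3,s) + 4` for `s ≥ 4`.
-/

set_option autoImplicit false

namespace Pool.MP65cef3.R3

open Finset

/-- adjacency of the 4-cycle 0-1-2-3-0 -/
def C4adj (i j : Fin 4) : Prop := j = i + 1 ∨ i = j + 1

instance : DecidableRel C4adj := fun i j => by unfold C4adj; infer_instance

theorem c4_irrefl : ∀ i : Fin 4, ¬ C4adj i i := by decide

theorem c4_symm {i j : Fin 4} (h : C4adj i j) : C4adj j i := Or.symm h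

theorem c4_tf : ∀ i j k : Fin 4, C4adj i j → C4adj j k → C4adj i k → False := by decide

theorem c4_ind : ∀ B : Finset (Fin 4), (∀ i ∈ B, ∀ j ∈ B, ¬ C4adj i j) →
    B.card ≤ 1 ∨ ∃ i, i ∈ B ∧ i + 2 ∈ B ∧ B.card = 2 := by decide

/-- attach a 4-cycle to `G` along the vertex sets `S i` -/
def ext4 {V : Type*} (G : SimpleGraph V) (S : Fin 4 → V → Prop) : SimpleGraph (V ⊕ Fin 4) where
  Adj x y := match x, y with
    | Sum.inl a, Sum.inl b => G.Adj a b
    | Sum.inl a, Sum.inr i => S i a
    | Sum.inr i, Sum.inl a => S i a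
    | Sum.inr i, Sum.inr j => C4adj i j
  symm := ⟨by
    rintro (a | i) (b | j) h
    · exact (G.adj_comm _ _).mp h
    · exact h
    · exact h
    · exact c4_symm h⟩
  loopless := ⟨by
    rintro (a | i) h
    · exact G.irrefl h
    · exact c4_irrefl i h⟩

theorem ext4_tf {V : Type*} {G : SimpleGraph V} {S : Fin 4 → V → Prop} (hG : TF G)
    (hS : ∀ i x y, S i x → S i y → ¬ G.Adj x y)
    (hd : ∀ i x, S i x → S (i + 1) x → False) : TF (ext4 G S) := by
  have hd' : ∀ i j x, C4adj i j → S i x → S j x → False := by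
    intro i j x hij hi hj
    rcases hij with h | h
    · rw [h] at hj; exact hd i x hi hj
    · rw [h] at hi; exact hd j x hj hi
  rintro (a | i) (b | j) (c | k) hab hbc hac
  · exact hG a b c hab hbc hac
  · exact hS k a b hac hbc hab
  · exact hS j a c hab hbc hac
  · exact hd' j k a hbc hab hac
  · exact hS i b c hab hac hbc
  · exact hd' i k b hac hab hbc
  · exact hd' i j c hab hac hbc
  · exact c4_tf i j k hab hbc hac

theorem ext4_ind {V : Type*} {G : SimpleGraph V} {S : Fin 4 → V → Prop} {a : ℕ}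
    (hα : ∀ A : Finset V, Ind G A → A.card ≤ a)
    (hh : ∀ i, ∀ A : Finset V, Ind G A → (∀ x ∈ A, ¬ S i x ∧ ¬ S (i + 2) x) → A.card < a)
    (I : Finset (V ⊕ Fin 4)) (hI : Ind (ext4 G S) I) : I.card ≤ a + 1 := by
  classical
  have hA : Ind G I.toLeft := by
    intro x hx y hy h
    exact hI _ (Finset.mem_toLeft.mp hx) _ (Finset.mem_toLeft.mp hy) h
  have hB : ∀ i ∈ I.toRight, ∀ j ∈ I.toRight, ¬ C4adj i j := by
    intro i hi j hj h
    exact hI _ (Finset.mem_toRight.mp hi) _ (Finset.mem_toRight.mp hj) h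
  have hc := Finset.card_toLeft_add_card_toRight (u := I)
  rcases c4_ind _ hB with h | ⟨i, hi, hi2, h⟩
  · have := hα _ hA
    omega
  · have h1 := hh i _ hA (by
      intro x hx
      constructor
      · intro hS
        exact hI _ (Finset.mem_toLeft.mp hx) _ (Finset.mem_toRight.mp hi) hS
      · intro hS
        exact hI _ (Finset.mem_toLeft.mp hx) _ (Finset.mem_toRight.mp hi2) hS)
    omega

/-- hitting pair (i): the closed neighbourhood -/
theorem hit1 {V : Type*} {G : SimpleGraph V} {a : ℕ}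
    (hα : ∀ A : Finset V, Ind G A → A.card ≤ a) (u : V) (A : Finset V) (hA : Ind G A)
    (h1 : ∀ x ∈ A, ¬ G.Adj u x) (h2 : ∀ x ∈ A, x ≠ u) : A.card < a := by
  classical
  have hu : u ∉ A := fun h => h2 u h rfl
  have h3 := hα (insert u A) (by
    intro x hx y hy hxy
    rcases Finset.mem_insert.mp hx with hxu | hxA
    · rcases Finset.mem_insert.mp hy with hyu | hyA
      · rw [hxu, hyu] at hxy
        exact G.irrefl hxy
      · rw [hxu] at hxy
        exact h1 y hyA hxy
    · rcases Finset.mem_insert.mp hy with hyu | hyA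
      · rw [hyu] at hxy
        exact h1 x hxA hxy.symm
      · exact hA x hxA y hyA hxy)
  rw [Finset.card_insert_of_notMem hu] at h3
  omega

/-- hitting pair (ii): `u0`, `u2` nonadjacent with the common neighbour `u3` -/
theorem hit2 {V : Type*} {G : SimpleGraph V} {a : ℕ}
    (hα : ∀ A : Finset V, Ind G A → A.card ≤ a) (u0 u2 u3 : V) (h02 : u0 ≠ u2)
    (hn : ¬ G.Adj u0 u2) (h03 : G.Adj u0 u3) (h23 : G.Adj u2 u3)
    (A : Finset V) (hA : Ind G A)
    (h1 : ∀ x ∈ A, x ≠ u2 ∧ ¬ (G.Adj u0 x ∧ ¬ G.Adj u2 x))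
    (h2 : ∀ x ∈ A, ¬ (G.Adj u2 x ∧ x ≠ u3)) : A.card < a := by
  classical
  by_cases h3 : u3 ∈ A
  · have hu0 : u0 ∉ A := fun h => hA u0 h u3 h3 h03
    have hu2 : u2 ∉ A := fun h => (h1 u2 h).1 rfl
    have hI : Ind G (insert u2 (A.erase u3)) := by
      intro x hx y hy hxy
      rcases Finset.mem_insert.mp hx with hxu | hxA
      · rcases Finset.mem_insert.mp hy with hyu | hyA
        · rw [hxu, hyu] at hxy
          exact G.irrefl hxy
        · rw [hxu] at hxy
          have hy' := Finset.mem_erase.mp hyA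
          exact h2 y hy'.2 ⟨hxy, hy'.1⟩
      · have hx' := Finset.mem_erase.mp hxA
        rcases Finset.mem_insert.mp hy with hyu | hyA
        · rw [hyu] at hxy
          exact h2 x hx'.2 ⟨hxy.symm, hx'.1⟩
        · exact hA x hx'.2 y (Finset.mem_erase.mp hyA).2 hxy
    have h4 := hit1 hα u0 (insert u2 (A.erase u3)) hI (by
      intro x hx hadj
      rcases Finset.mem_insert.mp hx with hxu | hxA
      · rw [hxu] at hadj
        exact hn hadj
      · have hx' := Finset.mem_erase.mp hxA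
        have h5 := (h1 x hx'.2).2
        have h6 := h2 x hx'.2
        by_cases h7 : G.Adj u2 x
        · exact h6 ⟨h7, hx'.1⟩
        · exact h5 ⟨hadj, h7⟩) (by
      intro x hx hxu
      rcases Finset.mem_insert.mp hx with hx2 | hxA
      · exact h02 (hxu ▸ hx2)
      · rw [hxu] at hxA
        exact hu0 (Finset.mem_erase.mp hxA).2)
    have h8 : u2 ∉ A.erase u3 := fun h => hu2 (Finset.mem_erase.mp h).2
    rw [Finset.card_insert_of_notMem h8, Finset.card_erase_of_mem h3] at h4
    have h9 : 0 < A.card := Finset.card_pos.mpr ⟨u3, h3⟩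
    omega
  · refine hit1 hα u2 A hA ?_ (fun x hx => (h1 x hx).1)
    intro x hx hadj
    refine h2 x hx ⟨hadj, ?_⟩
    intro h
    rw [h] at hx
    exact h3 hx

/-- existence of the four attaching sets -/
theorem sets4 {V : Type*} [Fintype V] {G : SimpleGraph V} {a : ℕ} (hG : TF G)
    (hα : ∀ A : Finset V, Ind G A → A.card ≤ a) (hV : 6 ≤ Fintype.card V) :
    ∃ S : Fin 4 → V → Prop,
      (∀ i x y, S i x → S i y → ¬ G.Adj x y) ∧
      (∀ i x, S i x → S (i + 1) x → False) ∧
      (∀ i, ∀ A : Finset V, Ind G A → (∀ x ∈ A, ¬ S i x ∧ ¬ S (i + 2) x) → A.card < a) := by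
  classical
  have nbr : ∀ u x y, G.Adj u x → G.Adj u y → ¬ G.Adj x y := fun u x y h1 h2 h3 => hG u x y h1 h3 h2
  by_cases c1 : ∃ u v, u ≠ v ∧ ¬ G.Adj u v ∧ ∀ w, ¬ (G.Adj u w ∧ G.Adj v w)
  · -- two nonadjacent vertices without common neighbour
    obtain ⟨u, v, huv, hn, hc⟩ := c1
    refine ⟨![fun x => G.Adj u x, fun x => G.Adj v x, fun x => x = u, fun x => x = v],
      ?_, ?_, ?_⟩
    · intro i x y hx hy
      fin_cases i
      · exact nbr u x y hx hy
      · exact nbr v x y hx hy
      · have hx' : x = u := hx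
        have hy' : y = u := hy
        rw [hx', hy']; exact G.irrefl
      · have hx' : x = v := hx
        have hy' : y = v := hy
        rw [hx', hy']; exact G.irrefl
    · intro i x hx hy
      fin_cases i
      · exact hc x ⟨hx, hy⟩
      · have hx' : G.Adj v x := hx
        have hy' : x = u := hy
        rw [hy'] at hx'
        exact hn hx'.symm
      · have hx' : x = u := hx
        have hy' : x = v := hy
        exact huv (hx' ▸ hy')
      · have hx' : x = v := hx
        have hy' : G.Adj u x := hy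
        rw [hx'] at hy'
        exact hn hy'
    · intro i A hA hm
      fin_cases i
      · exact hit1 hα u A hA (fun x hx => (hm x hx).1) (fun x hx => (hm x hx).2)
      · exact hit1 hα v A hA (fun x hx => (hm x hx).1) (fun x hx => (hm x hx).2)
      · exact hit1 hα u A hA (fun x hx => (hm x hx).2) (fun x hx => (hm x hx).1)
      · exact hit1 hα v A hA (fun x hx => (hm x hx).2) (fun x hx => (hm x hx).1)
  push Not at c1
  by_cases c2 : ∃ u0 u1 u2 u3, G.Adj u0 u1 ∧ G.Adj u1 u2 ∧ G.Adj u2 u3 ∧ G.Adj u3 u0 ∧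
      u0 ≠ u2 ∧ u1 ≠ u3
  · -- a 4-cycle
    obtain ⟨u0, u1, u2, u3, h01, h12, h23, h30, h02, h13⟩ := c2
    have n02 : ¬ G.Adj u0 u2 := nbr u1 u0 u2 h01.symm h12
    have n13 : ¬ G.Adj u1 u3 := nbr u2 u1 u3 h12.symm h23
    refine ⟨![fun x => x = u2 ∨ (G.Adj u0 x ∧ ¬ G.Adj u2 x),
      fun x => x = u3 ∨ (G.Adj u1 x ∧ ¬ G.Adj u3 x),
      fun x => G.Adj u2 x ∧ x ≠ u3, fun x => G.Adj u3 x ∧ x ≠ u2], ?_, ?_, ?_⟩
    · intro i x y hx hy
      fin_cases i
      · have hx' : x = u2 ∨ (G.Adj u0 x ∧ ¬ G.Adj u2 x) := hx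
        have hy' : y = u2 ∨ (G.Adj u0 y ∧ ¬ G.Adj u2 y) := hy
        rcases hx' with hx' | hx' <;> rcases hy' with hy' | hy'
        · rw [hx', hy']; exact G.irrefl
        · rw [hx']; exact hy'.2
        · rw [hy']; exact fun h => hx'.2 h.symm
        · exact nbr u0 x y hx'.1 hy'.1
      · have hx' : x = u3 ∨ (G.Adj u1 x ∧ ¬ G.Adj u3 x) := hx
        have hy' : y = u3 ∨ (G.Adj u1 y ∧ ¬ G.Adj u3 y) := hy
        rcases hx' with hx' | hx' <;> rcases hy' with hy' | hy'
        · rw [hx', hy']; exact G.irrefl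
        · rw [hx']; exact hy'.2
        · rw [hy']; exact fun h => hx'.2 h.symm
        · exact nbr u1 x y hx'.1 hy'.1
      · exact nbr u2 x y hx.1 hy.1
      · exact nbr u3 x y hx.1 hy.1
    · intro i x hx hy
      fin_cases i
      · have hx' : x = u2 ∨ (G.Adj u0 x ∧ ¬ G.Adj u2 x) := hx
        have hy' : x = u3 ∨ (G.Adj u1 x ∧ ¬ G.Adj u3 x) := hy
        rcases hx' with hx' | hx' <;> rcases hy' with hy' | hy'
        · rw [hx'] at hy'
          rw [hy'] at h23
          exact G.irrefl h23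
        · rw [hx'] at hy'
          exact hy'.2 h23.symm
        · rw [hy'] at hx'
          exact hx'.2 h23
        · exact nbr x u0 u1 hx'.1.symm hy'.1.symm h01
      · have hx' : x = u3 ∨ (G.Adj u1 x ∧ ¬ G.Adj u3 x) := hx
        have hy' : G.Adj u2 x ∧ x ≠ u3 := hy
        rcases hx' with hx' | hx'
        · exact hy'.2 hx'
        · exact nbr x u1 u2 hx'.1.symm hy'.1.symm h12
      · have hx' : G.Adj u2 x ∧ x ≠ u3 := hx
        have hy' : G.Adj u3 x ∧ x ≠ u2 := hy
        exact nbr x u2 u3 hx'.1.symm hy'.1.symm h23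
      · have hx' : G.Adj u3 x ∧ x ≠ u2 := hx
        have hy' : x = u2 ∨ (G.Adj u0 x ∧ ¬ G.Adj u2 x) := hy
        rcases hy' with hy' | hy'
        · exact hx'.2 hy'
        · exact nbr x u3 u0 hx'.1.symm hy'.1.symm h30
    · have k02 : ∀ A : Finset V, Ind G A →
          (∀ x ∈ A, ¬ (x = u2 ∨ (G.Adj u0 x ∧ ¬ G.Adj u2 x))) →
          (∀ x ∈ A, ¬ (G.Adj u2 x ∧ x ≠ u3)) → A.card < a := by
        intro A hA k1 k2
        exact hit2 hα u0 u2 u3 h02 n02 h30.symm h23 A hA
          (fun x hx => ⟨fun h => k1 x hx (Or.inl h), fun h => k1 x hx (Or.inr h)⟩) k2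
      have k13 : ∀ A : Finset V, Ind G A →
          (∀ x ∈ A, ¬ (x = u3 ∨ (G.Adj u1 x ∧ ¬ G.Adj u3 x))) →
          (∀ x ∈ A, ¬ (G.Adj u3 x ∧ x ≠ u2)) → A.card < a := by
        intro A hA k1 k2
        exact hit2 hα u1 u3 u2 h13 n13 h12 h23.symm A hA
          (fun x hx => ⟨fun h => k1 x hx (Or.inl h), fun h => k1 x hx (Or.inr h)⟩) k2
      intro i A hA hm
      fin_cases i
      · exact k02 A hA (fun x hx => (hm x hx).1) (fun x hx => (hm x hx).2)
      · exact k13 A hA (fun x hx => (hm x hx).1) (fun x hx => (hm x hx).2)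
      · exact k02 A hA (fun x hx => (hm x hx).2) (fun x hx => (hm x hx).1)
      · exact k13 A hA (fun x hx => (hm x hx).2) (fun x hx => (hm x hx).1)
  -- no 4-cycle, all nonadjacent pairs have a common neighbour
  have c3 : ∃ c, 2 < (G.neighborFinset c).card := by
    by_contra hc
    push Not at hc
    have hne : Nonempty V := Fintype.card_pos_iff.mp (by omega)
    obtain ⟨v⟩ := hne
    have hsub : (Finset.univ : Finset V) ⊆ ({v} ∪ G.neighborFinset v) ∪
        (G.neighborFinset v).biUnion (fun x => (G.neighborFinset x).erase v) := by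
      intro w _
      by_cases h1 : w = v
      · rw [h1]; simp
      by_cases h2 : G.Adj v w
      · simp [h2]
      · obtain ⟨x, hx1, hx2⟩ := c1 v w (Ne.symm h1) h2
        refine Finset.mem_union_right _ ?_
        rw [Finset.mem_biUnion]
        exact ⟨x, by simpa using hx1, by simpa [h1] using hx2.symm⟩
    have h3 := Finset.card_le_card hsub
    have h4 := Finset.card_union_le ({v} ∪ G.neighborFinset v)
      ((G.neighborFinset v).biUnion (fun x => (G.neighborFinset x).erase v))
    have h5 := Finset.card_union_le {v} (G.neighborFinset v)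
    have h6 := Finset.card_biUnion_le_card_mul (G.neighborFinset v)
      (fun x => (G.neighborFinset x).erase v) 1 (by
        intro x hx
        have h7 : v ∈ G.neighborFinset x := by
          have : G.Adj v x := by simpa using hx
          simpa using this.symm
        have h8 := hc x
        have h9 := Finset.card_erase_of_mem h7
        omega)
    have h7 := hc v
    rw [Finset.card_univ] at h3
    rw [Finset.card_singleton] at h5
    omega
  obtain ⟨c, hc⟩ := c3
  obtain ⟨l1, m1, l2, m2, l3, m3, d12, d13, d23⟩ := Finset.two_lt_card.mp hc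
  have e1 : G.Adj c l1 := by simpa using m1
  have e2 : G.Adj c l2 := by simpa using m2
  have e3 : G.Adj c l3 := by simpa using m3
  -- the only common neighbour of two leaves is `c`
  have only : ∀ p q x, p ≠ q → G.Adj c p → G.Adj c q → G.Adj p x → G.Adj q x → x = c := by
    intro p q x hpq hp hq hpx hqx
    by_contra hxc
    exact c2 ⟨c, p, x, q, hp, hpx, hqx.symm, hq.symm, fun h => hxc h.symm, hpq⟩
  have n12 : ¬ G.Adj l1 l2 := nbr c l1 l2 e1 e2
  have n13 : ¬ G.Adj l1 l3 := nbr c l1 l3 e1 e3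
  have n23 : ¬ G.Adj l2 l3 := nbr c l2 l3 e2 e3
  refine ⟨![fun x => x = l1 ∨ (G.Adj l2 x ∧ ¬ G.Adj l1 x),
    fun x => G.Adj l3 x,
    fun x => G.Adj l1 x ∧ x ≠ c, fun x => x = l3], ?_, ?_, ?_⟩
  · intro i x y hx hy
    fin_cases i
    · have hx' : x = l1 ∨ (G.Adj l2 x ∧ ¬ G.Adj l1 x) := hx
      have hy' : y = l1 ∨ (G.Adj l2 y ∧ ¬ G.Adj l1 y) := hy
      rcases hx' with hx' | hx' <;> rcases hy' with hy' | hy'
      · rw [hx', hy']; exact G.irrefl
      · rw [hx']; exact hy'.2
      · rw [hy']; exact fun h => hx'.2 h.symm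
      · exact nbr l2 x y hx'.1 hy'.1
    · exact nbr l3 x y hx hy
    · exact nbr l1 x y hx.1 hy.1
    · have hx' : x = l3 := hx
      have hy' : y = l3 := hy
      rw [hx', hy']; exact G.irrefl
  · intro i x hx hy
    fin_cases i
    · have hx' : x = l1 ∨ (G.Adj l2 x ∧ ¬ G.Adj l1 x) := hx
      have hy' : G.Adj l3 x := hy
      rcases hx' with hx' | hx'
      · rw [hx'] at hy'
        exact n13 hy'.symm
      · have h1 := only l2 l3 x d23 e2 e3 hx'.1 hy'
        rw [h1] at hx'
        exact hx'.2 e1.symm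
    · have hx' : G.Adj l3 x := hx
      have hy' : G.Adj l1 x ∧ x ≠ c := hy
      exact hy'.2 (only l1 l3 x d13 e1 e3 hy'.1 hx')
    · have hx' : G.Adj l1 x ∧ x ≠ c := hx
      have hy' : x = l3 := hy
      rw [hy'] at hx'
      exact n13 hx'.1
    · have hx' : x = l3 := hx
      have hy' : x = l1 ∨ (G.Adj l2 x ∧ ¬ G.Adj l1 x) := hy
      rcases hy' with hy' | hy'
      · exact d13 (hy'.symm.trans hx')
      · rw [hx'] at hy'
        exact n23 hy'.1
  · have k21 : ∀ A : Finset V, Ind G A →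
        (∀ x ∈ A, ¬ (x = l1 ∨ (G.Adj l2 x ∧ ¬ G.Adj l1 x))) →
        (∀ x ∈ A, ¬ (G.Adj l1 x ∧ x ≠ c)) → A.card < a := by
      intro A hA k1 k2
      exact hit2 hα l2 l1 c d12.symm (fun h => n12 h.symm) e2.symm e1.symm A hA
        (fun x hx => ⟨fun h => k1 x hx (Or.inl h), fun h => k1 x hx (Or.inr h)⟩) k2
    intro i A hA hm
    fin_cases i
    · exact k21 A hA (fun x hx => (hm x hx).1) (fun x hx => (hm x hx).2)
    · exact hit1 hα l3 A hA (fun x hx => (hm x hx).1) (fun x hx => (hm x hx).2)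
    · exact k21 A hA (fun x hx => (hm x hx).2) (fun x hx => (hm x hx).1)
    · exact hit1 hα l3 A hA (fun x hx => (hm x hx).2) (fun x hx => (hm x hx).1)

/-- `R(3,s+1) ≥ R(3,s) + 4` for `s ≥ 4` -/
theorem four {s : ℕ} (hs : 4 ≤ s) : sInf (RSet s) + 4 ≤ sInf (RSet (s + 1)) := by
  classical
  have h7 := seven hs
  obtain ⟨G, hG, hα⟩ := extremal (s := s) (n := sInf (RSet s) - 1) (by omega)
  obtain ⟨S, hS1, hS2, hS3⟩ := sets4 (a := s - 1) hG
    (fun A hA => by have := hα A hA; omega) (by rw [Fintype.card_fin]; omega)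
  have h := lower (s := s + 1) (ext4 G S) (ext4_tf hG hS1 hS2) (by
    intro I hI
    have := ext4_ind (a := s - 1) (fun A hA => by have := hα A hA; omega) hS3 I hI
    omega)
  rw [Fintype.card_sum, Fintype.card_fin, Fintype.card_fin] at h
  omega

end Pool.MP65cef3.R3
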