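import Mathlib
import Pool.Agent.Lib.MP_65cef3_co.Four

/-!
Blow-up construction: attach a graph `H` with some doubled vertices to `G`.
-/

set_option autoImplicit false

namespace Pool.MP65cef3.R3

open Finset

/-- attach the graph `K` on `P` to `G` on `V`, the vertex `p` being joined to `T p` -/
def att {V P : Type*} (G : SimpleGraph V) (K : SimpleGraph P) (T : P → V → Prop) :
    SimpleGraph (V ⊕ P) where
  Adj x y := match x, y with
    | Sum.inl a, Sum.inl b => G.Adj a b
    | Sum.inl a, Sum.inr i => T i a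
    | Sum.inr i, Sum.inl a => T i a
    | Sum.inr i, Sum.inr j => K.Adj i j
  symm := ⟨by
    rintro (a | i) (b | j) h
    · exact (G.adj_comm _ _).mp h
    · exact h
    · exact h
    · exact (K.adj_comm _ _).mp h⟩
  loopless := ⟨by
    rintro (a | i) h
    · exact G.irrefl h
    · exact K.irrefl h⟩

theorem att_tf {V P : Type*} {G : SimpleGraph V} {K : SimpleGraph P} {T : P → V → Prop}
    (hG : TF G) (hK : TF K) (hS : ∀ i x y, T i x → T i y → ¬ G.Adj x y)
    (hd : ∀ i j x, K.Adj i j → T i x → T j x → False) : TF (att G K T) := by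
  rintro (a | i) (b | j) (c | k) hab hbc hac
  · exact hG a b c hab hbc hac
  · exact hS k a b hac hbc hab
  · exact hS j a c hab hbc hac
  · exact hd j k a hbc hab hac
  · exact hS i b c hab hac hbc
  · exact hd i k b hac hab hbc
  · exact hd i j c hab hac hbc
  · exact hK i j k hab hbc hac

theorem blow {V W : Type*} [Fintype V] [Fintype W] {G : SimpleGraph V} {H : SimpleGraph W}
    (D : Finset W) (A B : W → V → Prop) {a k : ℕ} (hG : TF G) (hH : TF H)
    (hA : ∀ z ∈ D, ∀ x y, A z x → A z y → ¬ G.Adj x y)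
    (hB : ∀ z ∈ D, ∀ x y, B z x → B z y → ¬ G.Adj x y)
    (hd : ∀ z ∈ D, ∀ z' ∈ D, H.Adj z z' → ∀ x, (A z x ∨ B z x) → (A z' x ∨ B z' x) → False)
    (hk : ∀ J : Finset W, Ind H J → J.card ≤ k)
    (hh : ∀ E ⊆ D, Ind H E → ∀ M : Finset V, Ind G M →
      (∀ z ∈ E, ∀ x ∈ M, ¬ A z x ∧ ¬ B z x) → M.card + E.card ≤ a) :
    Fintype.card V + Fintype.card W + D.card < sInf (RSet (a + k + 1)) := by
  classical
  let π : W ⊕ {z // z ∈ D} → W := Sum.elim id Subtype.val
  let K : SimpleGraph (W ⊕ {z // z ∈ D}) := H.comap π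
  let T : W ⊕ {z // z ∈ D} → V → Prop := fun p v => match p with
    | Sum.inl z => z ∈ D ∧ A z v
    | Sum.inr z => B z.1 v
  have hT : ∀ p v, T p v → π p ∈ D ∧ (A (π p) v ∨ B (π p) v) := by
    rintro (z | z) v h
    · exact ⟨h.1, Or.inl h.2⟩
    · exact ⟨z.2, Or.inr h⟩
  have h := lower (s := a + k + 1) (att G K T) (att_tf hG
    (fun p q r h1 h2 h3 => hH _ _ _ h1 h2 h3)
    (by
      rintro (z | z) x y hx hy
      · exact hA z hx.1 x y hx.2 hy.2
      · exact hB z.1 z.2 x y hx hy)
    (by
      intro p q x hpq hp hq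
      obtain ⟨hp1, hp2⟩ := hT p x hp
      obtain ⟨hq1, hq2⟩ := hT q x hq
      exact hd _ hp1 _ hq1 hpq x hp2 hq2)) (by
    intro I hI
    have hM : Ind G I.toLeft := by
      intro x hx y hy h
      exact hI _ (Finset.mem_toLeft.mp hx) _ (Finset.mem_toLeft.mp hy) h
    set J := I.toRight with hJ
    have hJK : ∀ p ∈ J, ∀ q ∈ J, ¬ H.Adj (π p) (π q) := by
      intro p hp q hq h
      exact hI _ (Finset.mem_toRight.mp hp) _ (Finset.mem_toRight.mp hq) h
    set J1 := J.toLeft with hJ1
    set J2 := J.toRight.map (Function.Embedding.subtype _) with hJ2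
    have hm1 : ∀ z ∈ J1, (Sum.inl z : W ⊕ {z // z ∈ D}) ∈ J := fun z hz => Finset.mem_toLeft.mp hz
    have hm2 : ∀ z ∈ J2, ∃ hz : z ∈ D, (Sum.inr ⟨z, hz⟩ : W ⊕ {z // z ∈ D}) ∈ J := by
      intro z hz
      obtain ⟨y, hy, rfl⟩ := Finset.mem_map.mp hz
      exact ⟨y.2, Finset.mem_toRight.mp hy⟩
    have hU : Ind H (J1 ∪ J2) := by
      intro x hx y hy hxy
      have key : ∀ z ∈ J1 ∪ J2, ∃ p ∈ J, π p = z := by
        intro z hz
        rcases Finset.mem_union.mp hz with hz | hz
        · exact ⟨_, hm1 z hz, rfl⟩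
        · obtain ⟨h1, h2⟩ := hm2 z hz
          exact ⟨_, h2, rfl⟩
      obtain ⟨p, hp, hpx⟩ := key x hx
      obtain ⟨q, hq, hqy⟩ := key y hy
      apply hJK p hp q hq
      rw [hpx, hqy]
      exact hxy
    have hE : J1 ∩ J2 ⊆ D := by
      intro z hz
      obtain ⟨h1, _⟩ := hm2 z (Finset.mem_inter.mp hz).2
      exact h1
    have h1 := hk _ hU
    have h2 := hh (J1 ∩ J2) hE (hU.mono (fun z hz => Finset.mem_union_left _
      (Finset.mem_inter.mp hz).1)) I.toLeft hM (by
      intro z hz x hx
      obtain ⟨hz1, hz2⟩ := Finset.mem_inter.mp hz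
      obtain ⟨hzD, hz3⟩ := hm2 z hz2
      have hxI := Finset.mem_toLeft.mp hx
      constructor
      · intro hAz
        exact hI _ hxI _ (Finset.mem_toRight.mp (hm1 z hz1)) (show T (Sum.inl z) x from ⟨hzD, hAz⟩)
      · intro hBz
        exact hI _ hxI _ (Finset.mem_toRight.mp hz3) (show T (Sum.inr ⟨z, hzD⟩) x from hBz))
    have h3 := Finset.card_toLeft_add_card_toRight (u := I)
    have h4 := Finset.card_toLeft_add_card_toRight (u := J)
    have h5 := Finset.card_union_add_card_inter J1 J2
    have h6 : J2.card = J.toRight.card := Finset.card_map _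
    rw [← hJ] at h3
    rw [← hJ1] at h4
    omega)
  rw [Fintype.card_sum, Fintype.card_sum, Fintype.card_coe] at h
  omega

/-- R(3,j) vertices contain an independent j-set -/
theorem exists_ind {V : Type*} {G : SimpleGraph V} (hG : TF G) {j : ℕ} (X : Finset V)
    (hX : sInf (RSet j) ≤ X.card) : ∃ B ⊆ X, Ind G B ∧ B.card = j := by
  classical
  by_contra hc
  push Not at hc
  have h := lower (s := j) (G.comap (Subtype.val : {x // x ∈ X} → V))
    (fun p q r h1 h2 h3 => hG _ _ _ h1 h2 h3) (by
      intro A hA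
      by_contra hcard
      push Not at hcard
      have hI : Ind G (A.map (Function.Embedding.subtype _)) := by
        intro x hx y hy hxy
        obtain ⟨x', hx', rfl⟩ := Finset.mem_map.mp hx
        obtain ⟨y', hy', rfl⟩ := Finset.mem_map.mp hy
        exact hA x' hx' y' hy' hxy
      have hsub : A.map (Function.Embedding.subtype _) ⊆ X := by
        intro x hx
        obtain ⟨x', hx', rfl⟩ := Finset.mem_map.mp hx
        exact x'.2
      have h1 : j ≤ (A.map (Function.Embedding.subtype _)).card := by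
        rw [Finset.card_map]; exact hcard
      obtain ⟨B, hB, hBc⟩ := Finset.exists_subset_card_eq h1
      exact hc B (hB.trans hsub) (hI.mono hB) hBc)
  rw [Fintype.card_coe] at h
  omega

theorem r_pos (s : ℕ) : 0 < sInf (RSet (s + 1)) := by
  classical
  have h := lower (s := s + 1) (⊥ : SimpleGraph (Fin 0)) (fun a => a.elim0) (by
    intro A _
    have : A = ∅ := by
      apply Finset.eq_empty_of_forall_notMem
      intro x
      exact x.elim0
    rw [this]; simp)
  simpa using h

theorem r_zero : sInf (RSet 0) = 0 := by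
  classical
  apply Nat.eq_zero_of_le_zero
  apply Nat.sInf_le
  intro G
  right
  rw [ind_iff]
  push Not
  exact ⟨∅, by intro x hx; simp at hx, by simp⟩

theorem r_one : sInf (RSet 1) = 1 := by
  classical
  apply le_antisymm
  · apply Nat.sInf_le
    intro G
    right
    rw [ind_iff]
    push Not
    refine ⟨{0}, ?_, by simp⟩
    intro x hx y hy h
    rw [Finset.mem_singleton] at hx hy
    rw [hx, hy] at h
    exact G.irrefl h
  · exact r_pos 0

theorem r_strict (s : ℕ) : sInf (RSet s) < sInf (RSet (s + 1)) := by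
  classical
  rcases Nat.eq_zero_or_pos s with h0 | hs
  · rw [h0, r_zero, r_one]
    omega
  obtain ⟨t, rfl⟩ : ∃ t, s = t + 1 := ⟨s - 1, by omega⟩
  have hp := r_pos t
  obtain ⟨G, hG, hα⟩ := extremal (s := t + 1) (n := sInf (RSet (t + 1)) - 1) (by omega)
  have h := lower (s := t + 1 + 1) (att G (⊥ : SimpleGraph (Fin 1)) (fun _ _ => False))
    (att_tf hG (by intro a b c h; exact absurd h (by simp)) (by intro i x y h; exact h.elim)
      (by intro i j x h; exact absurd h (by simp))) (by
    intro I hI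
    have hM : Ind G I.toLeft := by
      intro x hx y hy h
      exact hI _ (Finset.mem_toLeft.mp hx) _ (Finset.mem_toLeft.mp hy) h
    have h1 := hα _ hM
    have h2 : I.toRight.card ≤ 1 := by
      have := Finset.card_le_univ I.toRight
      simpa using this
    have h3 := Finset.card_toLeft_add_card_toRight (u := I)
    omega)
  rw [Fintype.card_sum, Fintype.card_fin, Fintype.card_fin] at h
  omega

theorem r_mono : StrictMono (fun s => sInf (RSet s)) := strictMono_nat_of_lt_succ r_strict

/-- a map from one finset to another of the same size -/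
theorem exists_map {V W : Type*} [Nonempty V] (D : Finset W) (U : Finset V)
    (h : D.card = U.card) : ∃ u : W → V, Set.InjOn u D ∧ ∀ z ∈ D, u z ∈ U := by
  classical
  let e := Finset.equivOfCardEq h
  refine ⟨fun z => if hz : z ∈ D then (e ⟨z, hz⟩).1 else Classical.arbitrary V, ?_, ?_⟩
  · intro x hx y hy hxy
    have hx' : x ∈ D := hx
    have hy' : y ∈ D := hy
    simp only [hx', hy', dif_pos] at hxy
    have h1 := e.injective (Subtype.ext hxy)
    exact congrArg Subtype.val h1
  · intro z hz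
    simp only [hz, dif_pos]
    exact (e ⟨z, hz⟩).2

/-- adding to `M` the vertices `u z`, `z ∈ E` -/
theorem add_image {V W : Type*} [DecidableEq V] {G : SimpleGraph V} {a : ℕ} (hα : ∀ A : Finset V, Ind G A → A.card ≤ a)
    (E : Finset W) (U : Finset V) (hU : Ind G U) (u : W → V) (hinj : Set.InjOn u E)
    (hu : ∀ z ∈ E, u z ∈ U) (M : Finset V) (hM : Ind G M)
    (h : ∀ z ∈ E, ∀ x ∈ M, ¬ G.Adj (u z) x ∧ ¬ x = u z) :
    Ind G (M ∪ E.image u) ∧ (M ∪ E.image u).card = M.card + E.card ∧
      M.card + E.card ≤ a := by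
  classical
  have hI : Ind G (M ∪ E.image u) := by
    intro x hx y hy hxy
    rcases Finset.mem_union.mp hx with hx | hx
    · rcases Finset.mem_union.mp hy with hy | hy
      · exact hM x hx y hy hxy
      · obtain ⟨z, hz, rfl⟩ := Finset.mem_image.mp hy
        exact (h z hz x hx).1 hxy.symm
    · obtain ⟨z, hz, rfl⟩ := Finset.mem_image.mp hx
      rcases Finset.mem_union.mp hy with hy | hy
      · exact (h z hz y hy).1 hxy
      · obtain ⟨z', hz', rfl⟩ := Finset.mem_image.mp hy
        exact hU _ (hu z hz) _ (hu z' hz') hxy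
  have hdisj : Disjoint M (E.image u) := by
    rw [Finset.disjoint_left]
    intro x hx hx2
    obtain ⟨z, hz, rfl⟩ := Finset.mem_image.mp hx2
    exact (h z hz _ hx).2 rfl
  have hc : (M ∪ E.image u).card = M.card + E.card := by
    rw [Finset.card_union_of_disjoint hdisj, Finset.card_image_of_injOn hinj]
  refine ⟨hI, hc, ?_⟩
  rw [← hc]
  exact hα _ hI

/-- `R(3,s+k) ≥ R(3,s) + R(3,k+1) + k - 1` for `k < s` (Xu, Xie, Exoo, Radziszowski) -/
theorem xxer {s k : ℕ} (hs : 2 ≤ s) (hks : k + 1 ≤ s) :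
    sInf (RSet s) + sInf (RSet (k + 1)) + k ≤ sInf (RSet (s + k)) + 1 := by
  classical
  have m1 : sInf (RSet k) < sInf (RSet (k + 1)) := r_strict k
  have m2 : sInf (RSet (k + 1)) ≤ sInf (RSet s) := r_mono.monotone hks
  have m3 : sInf (RSet 1) < sInf (RSet s) := r_mono (by omega)
  rw [r_one] at m3
  obtain ⟨G, hG, hα⟩ := extremal (s := s) (n := sInf (RSet s) - 1) (by omega)
  obtain ⟨H, hH, hβ⟩ := extremal (s := k + 1) (n := sInf (RSet (k + 1)) - 1) (by omega)
  obtain ⟨U, _, hU, hUc⟩ := exists_ind hG (j := k) Finset.univ (by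
    rw [Finset.card_univ, Fintype.card_fin]; omega)
  obtain ⟨D, _, hD, hDc⟩ := exists_ind hH (j := k) Finset.univ (by
    rw [Finset.card_univ, Fintype.card_fin]; omega)
  haveI : Nonempty (Fin (sInf (RSet s) - 1)) := ⟨⟨0, by omega⟩⟩
  obtain ⟨u, hinj, hu⟩ := exists_map (V := Fin (sInf (RSet s) - 1)) D U (by rw [hUc, hDc])
  have h := blow (G := G) (H := H) D (fun z v => G.Adj (u z) v) (fun z v => v = u z)
    (a := s - 1) (k := k) hG hH
    (fun z _ x y hx hy hxy => hG _ _ _ hx hxy hy)
    (fun z _ x y hx hy hxy => by rw [hx, hy] at hxy; exact G.irrefl hxy)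
    (fun z hz z' hz' hzz => (hD z hz z' hz' hzz).elim)
    (fun J hJ => by have := hβ J hJ; omega)
    (by
      intro E hE _ M hM hm
      exact (add_image (a := s - 1) (fun A hA => by have := hα A hA; omega) E U hU u
        (hinj.mono (by exact_mod_cast hE)) (fun z hz => hu z (hE hz)) M hM hm).2.2)
  rw [Fintype.card_fin, Fintype.card_fin, hDc] at h
  have e1 : s - 1 + k + 1 = s + k := by omega
  rw [e1] at h
  omega

end Pool.MP65cef3.R3
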