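import Mathlib
import Pool.Agent.Lib.MP_65cef3_co.Join

/-!
`R(3,s+k) ≥ R(3,s) + R(3,k+1) + k`
-/

set_option autoImplicit false

namespace Pool.MP65cef3.R3

open Finset

/-- an extremal graph for `R(3,k+1)` with `k+1` vertices spanning exactly one edge -/
theorem critical {k : ℕ} (hk : 1 ≤ k) :
    ∃ (H : SimpleGraph (Fin (sInf (RSet (k + 1)) - 1))) (D : Finset (Fin (sInf (RSet (k + 1)) - 1)))
      (h w : Fin (sInf (RSet (k + 1)) - 1)),
      TF H ∧ (∀ A, Ind H A → A.card ≤ k) ∧ D.card = k + 1 ∧ h ∈ D ∧ w ∈ D ∧ H.Adj h w ∧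
      ∀ x ∈ D, ∀ y ∈ D, H.Adj x y → (x = h ∧ y = w) ∨ (x = w ∧ y = h) := by
  classical
  set m := sInf (RSet (k + 1)) - 1 with hm
  have hpos := r_pos k
  have hmk : k + 1 ≤ m := by
    -- one edge
    let G1 : SimpleGraph (Fin (k + 1)) := SimpleGraph.fromEdgeSet {s(⟨0, by omega⟩, ⟨1, by omega⟩)}
    have hadj : ∀ x y, G1.Adj x y ↔ (s(x, y) = s(⟨0, by omega⟩, ⟨1, by omega⟩)) ∧ x ≠ y := by
      intro x y
      simp only [G1, SimpleGraph.fromEdgeSet_adj, Set.mem_singleton_iff]
    have h01 : (⟨0, by omega⟩ : Fin (k + 1)) ≠ ⟨1, by omega⟩ := by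
      intro h
      have := congrArg Fin.val h
      simp at this
    have h := lower (s := k + 1) G1 (by
      intro a b c hab hbc hac
      rw [hadj] at hab hbc hac
      obtain ⟨h1, h2⟩ := hab
      obtain ⟨h3, h4⟩ := hbc
      obtain ⟨h5, h6⟩ := hac
      rw [Sym2.eq_iff] at h1 h3 h5
      rcases h1 with ⟨p1, p2⟩ | ⟨p1, p2⟩ <;> rcases h3 with ⟨p3, p4⟩ | ⟨p3, p4⟩ <;>
        rcases h5 with ⟨p5, p6⟩ | ⟨p5, p6⟩ <;> subst p1 <;> simp_all) (by
      intro A hA
      by_contra hc
      push Not at hc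
      have h2 : A.card ≤ k + 1 := by
        have := Finset.card_le_univ A
        simpa using this
      have h3 : A = Finset.univ := by
        apply Finset.eq_univ_of_card
        rw [Fintype.card_fin]; omega
      have hall : ∀ x, x ∈ A := by
        intro x
        rw [h3]
        exact Finset.mem_univ _
      refine hA ⟨0, by omega⟩ (hall _) ⟨1, by omega⟩ (hall _) ?_
      rw [hadj]
      exact ⟨rfl, h01⟩)
    rw [Fintype.card_fin] at h
    omega
  let S : Set (SimpleGraph (Fin m)) := {H | TF H ∧ ∀ A, Ind H A → A.card ≤ k}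
  have hne : S.Nonempty := by
    obtain ⟨H, hH, hβ⟩ := extremal (s := k + 1) (n := m) (by omega)
    exact ⟨H, hH, fun A hA => by have := hβ A hA; omega⟩
  obtain ⟨H, hHS, hmin⟩ := S.toFinite.exists_minimal hne
  obtain ⟨hH, hβ⟩ := hHS
  -- there is an edge
  have hedge : ∃ h w, H.Adj h w := by
    by_contra hc
    push Not at hc
    have := hβ Finset.univ (fun x _ y _ => hc x y)
    rw [Finset.card_univ, Fintype.card_fin] at this
    omega
  obtain ⟨h, w, hhw⟩ := hedge
  have hdel : ¬ (∀ A, Ind (H.deleteEdges {s(h, w)}) A → A.card ≤ k) := by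
    intro hc
    have hle : H.deleteEdges {s(h, w)} ≤ H := SimpleGraph.deleteEdges_le _
    have hmem : H.deleteEdges {s(h, w)} ∈ S :=
      ⟨fun a b c h1 h2 h3 => hH a b c (hle h1) (hle h2) (hle h3), hc⟩
    have h2 := hmin hmem hle
    have h3 := h2 hhw
    rw [SimpleGraph.deleteEdges_adj] at h3
    exact h3.2 rfl
  push Not at hdel
  obtain ⟨B, hB, hBc⟩ := hdel
  have hBadj : ∀ x ∈ B, ∀ y ∈ B, H.Adj x y → (x = h ∧ y = w) ∨ (x = w ∧ y = h) := by
    intro x hx y hy hxy
    have h1 := hB x hx y hy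
    rw [SimpleGraph.deleteEdges_adj] at h1
    push Not at h1
    have h2 := h1 hxy
    rw [Set.mem_singleton_iff, Sym2.eq_iff] at h2
    exact h2
  have hmem : h ∈ B ∧ w ∈ B := by
    by_contra hc
    have hI : Ind H B := by
      intro x hx y hy hxy
      rcases hBadj x hx y hy hxy with ⟨h1, h2⟩ | ⟨h1, h2⟩
      · exact hc ⟨h1 ▸ hx, h2 ▸ hy⟩
      · exact hc ⟨h2 ▸ hy, h1 ▸ hx⟩
    have := hβ B hI
    omega
  have hne : h ≠ w := hhw.ne
  obtain ⟨D, hD1, hD2, hDc⟩ := Finset.exists_subsuperset_card_eq (s := {h, w}) (t := B)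
    (n := k + 1) (by
      intro x hx
      rw [Finset.mem_insert, Finset.mem_singleton] at hx
      rcases hx with rfl | rfl
      · exact hmem.1
      · exact hmem.2) (by
      rw [Finset.card_pair hne]; omega) (by omega)
  exact ⟨H, D, h, w, hH, hβ, hDc, hD1 (by simp), hD1 (by simp), hhw,
    fun x hx y hy => hBadj x (hD2 hx) y (hD2 hy)⟩

/-- `R(3,s+k) ≥ R(3,s) + R(3,k+1) + k` when `R(3,s)` is large enough -/
theorem plus {s k : ℕ} (hs : 4 ≤ s) (hk : 1 ≤ k)
    (hbig : 4 * s + sInf (RSet (k - 1)) ≤ sInf (RSet s) + 3) :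
    sInf (RSet s) + sInf (RSet (k + 1)) + k ≤ sInf (RSet (s + k)) := by
  classical
  have h7 := seven hs
  obtain ⟨G, hG, hα'⟩ := extremal (s := s) (n := sInf (RSet s) - 1) (by omega)
  have hα : ∀ A, Ind G A → A.card ≤ s - 1 := fun A hA => by have := hα' A hA; omega
  obtain ⟨Q, hQ1, hQ2, hQ3⟩ := sets4 (a := s - 1) hG hα (by rw [Fintype.card_fin]; omega)
  obtain ⟨H, D, h, w, hH, hβ, hDc, hhD, hwD, hhw, hDadj⟩ := critical hk
  have hne : h ≠ w := hhw.ne
  have hposk := r_pos k
  -- the vertices outside the four sets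
  let F : Fin 4 → Finset (Fin (sInf (RSet s) - 1)) := fun i => Finset.univ.filter (fun v => Q i v)
  have hF : ∀ i, (F i).card ≤ s - 1 := by
    intro i
    apply hα
    intro x hx y hy
    exact hQ1 i x y (Finset.mem_filter.mp hx).2 (Finset.mem_filter.mp hy).2
  let X : Finset (Fin (sInf (RSet s) - 1)) := Finset.univ \ (Finset.univ.biUnion F)
  have hXc : sInf (RSet (k - 1)) ≤ X.card := by
    have h1 : (Finset.univ.biUnion F).card ≤ 4 * (s - 1) := by
      have := Finset.card_biUnion_le_card_mul (Finset.univ : Finset (Fin 4)) F (s - 1)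
        (fun i _ => hF i)
      simpa using this
    have h2 : X.card = (sInf (RSet s) - 1) - (Finset.univ.biUnion F).card := by
      rw [Finset.card_sdiff_of_subset (Finset.subset_univ _), Finset.card_univ, Fintype.card_fin]
    omega
  obtain ⟨U, hUX, hU, hUc⟩ := exists_ind hG X hXc
  have hUQ : ∀ x ∈ U, ∀ i, ¬ Q i x := by
    intro x hx i hi
    have h1 := (Finset.mem_sdiff.mp (hUX hx)).2
    apply h1
    rw [Finset.mem_biUnion]
    exact ⟨i, Finset.mem_univ _, Finset.mem_filter.mpr ⟨Finset.mem_univ _, hi⟩⟩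
  set D0 := (D.erase h).erase w with hD0
  have hwh : w ∈ D.erase h := Finset.mem_erase.mpr ⟨hne.symm, hwD⟩
  have hD0c : D0.card = k - 1 := by
    rw [hD0, Finset.card_erase_of_mem hwh, Finset.card_erase_of_mem hhD, hDc]
    omega
  haveI : Nonempty (Fin (sInf (RSet s) - 1)) := ⟨⟨0, by omega⟩⟩
  obtain ⟨u, hinj, hu⟩ := exists_map (V := Fin (sInf (RSet s) - 1)) D0 U (by rw [hUc, hD0c])
  let A : Fin (sInf (RSet (k + 1)) - 1) → Fin (sInf (RSet s) - 1) → Prop :=
    fun z v => if z = h then Q 0 v else if z = w then Q 1 v else G.Adj (u z) v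
  let B : Fin (sInf (RSet (k + 1)) - 1) → Fin (sInf (RSet s) - 1) → Prop :=
    fun z v => if z = h then Q 2 v else if z = w then Q 3 v else v = u z
  have hAh : ∀ v, A h v ↔ Q 0 v := fun v => by simp [A]
  have hAw : ∀ v, A w v ↔ Q 1 v := fun v => by simp [A, hne.symm]
  have hBh : ∀ v, B h v ↔ Q 2 v := fun v => by simp [B]
  have hBw : ∀ v, B w v ↔ Q 3 v := fun v => by simp [B, hne.symm]
  have hAo : ∀ z, z ≠ h → z ≠ w → ∀ v, A z v ↔ G.Adj (u z) v := fun z h1 h2 v => by
    simp [A, h1, h2]
  have hBo : ∀ z, z ≠ h → z ≠ w → ∀ v, B z v ↔ v = u z := fun z h1 h2 v => by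
    simp [B, h1, h2]
  have hd4 : ∀ x, (Q 0 x ∨ Q 2 x) → (Q 1 x ∨ Q 3 x) → False := by
    rintro x (h1 | h1) (h2 | h2)
    · exact hQ2 0 x h1 h2
    · exact hQ2 3 x h2 h1
    · exact hQ2 1 x h2 h1
    · exact hQ2 2 x h1 h2
  have hfin := blow (G := G) (H := H) D A B (a := s - 1) (k := k) hG hH
    (by
      intro z _ x y hx hy hxy
      by_cases h1 : z = h
      · rw [h1, hAh] at hx hy
        exact hQ1 0 x y hx hy hxy
      by_cases h2 : z = w
      · rw [h2, hAw] at hx hy
        exact hQ1 1 x y hx hy hxy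
      rw [hAo z h1 h2] at hx hy
      exact hG _ _ _ hx hxy hy)
    (by
      intro z _ x y hx hy hxy
      by_cases h1 : z = h
      · rw [h1, hBh] at hx hy
        exact hQ1 2 x y hx hy hxy
      by_cases h2 : z = w
      · rw [h2, hBw] at hx hy
        exact hQ1 3 x y hx hy hxy
      rw [hBo z h1 h2] at hx hy
      rw [hx, hy] at hxy
      exact G.irrefl hxy)
    (by
      intro z hz z' hz' hzz x h1 h2
      rcases hDadj z hz z' hz' hzz with ⟨e1, e2⟩ | ⟨e1, e2⟩
      · rw [e1, hAh, hBh] at h1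
        rw [e2, hAw, hBw] at h2
        exact hd4 x h1 h2
      · rw [e1, hAw, hBw] at h1
        rw [e2, hAh, hBh] at h2
        exact hd4 x h2 h1)
    hβ
    (by
      intro E hE hEi M hM hm
      set E0 := (E.erase h).erase w with hE0
      have hE0D : E0 ⊆ D0 := by
        intro z hz
        rw [hE0, Finset.mem_erase, Finset.mem_erase] at hz
        rw [hD0, Finset.mem_erase, Finset.mem_erase]
        exact ⟨hz.1, hz.2.1, hE hz.2.2⟩
      have hE0E : ∀ z ∈ E0, z ∈ E ∧ z ≠ h ∧ z ≠ w := by
        intro z hz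
        rw [hE0, Finset.mem_erase, Finset.mem_erase] at hz
        exact ⟨hz.2.2, hz.2.1, hz.1⟩
      obtain ⟨hI, hIc, hle⟩ := add_image (a := s - 1) hα E0 U hU u
        (hinj.mono (by exact_mod_cast hE0D)) (fun z hz => hu z (hE0D hz)) M hM (by
          intro z hz x hx
          obtain ⟨h1, h2, h3⟩ := hE0E z hz
          have h4 := hm z h1 x hx
          rw [hAo z h2 h3, hBo z h2 h3] at h4
          exact h4)
      have himg : ∀ x ∈ M ∪ E0.image u, x ∈ M ∨ x ∈ U := by
        intro x hx
        rcases Finset.mem_union.mp hx with hx | hx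
        · exact Or.inl hx
        · obtain ⟨z, hz, rfl⟩ := Finset.mem_image.mp hx
          exact Or.inr (hu z (hE0D hz))
      by_cases c1 : h ∈ E
      · have c2 : w ∉ E := fun hw => hEi h c1 w hw hhw
        have h3 := hQ3 0 _ hI (by
          intro x hx
          rcases himg x hx with hx | hx
          · have h4 := hm h c1 x hx
            rw [hAh, hBh] at h4
            exact h4
          · exact ⟨hUQ x hx 0, hUQ x hx 2⟩)
        have h4 : E0.card + 1 = E.card := by
          rw [hE0, Finset.erase_eq_of_notMem (fun h => c2 (Finset.mem_erase.mp h).2),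
            Finset.card_erase_of_mem c1]
          have := Finset.card_pos.mpr ⟨h, c1⟩
          omega
        omega
      · by_cases c2 : w ∈ E
        · have h3 := hQ3 1 _ hI (by
            intro x hx
            rcases himg x hx with hx | hx
            · have h4 := hm w c2 x hx
              rw [hAw, hBw] at h4
              exact h4
            · exact ⟨hUQ x hx 1, hUQ x hx 3⟩)
          have h4 : E0.card + 1 = E.card := by
            rw [hE0, Finset.erase_eq_of_notMem c1, Finset.card_erase_of_mem c2]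
            have := Finset.card_pos.mpr ⟨w, c2⟩
            omega
          omega
        · have h4 : E0 = E := by
            rw [hE0, Finset.erase_eq_of_notMem c1, Finset.erase_eq_of_notMem c2]
          rw [h4] at hle
          exact hle)
  rw [Fintype.card_fin, Fintype.card_fin, hDc] at hfin
  have e1 : s - 1 + k + 1 = s + k := by omega
  rw [e1] at hfin
  omega

/-- `R(3,t) ≥ 5 t - 8` for `t ≥ 65` -/
theorem five : ∀ t : ℕ, 65 ≤ t → 5 * t ≤ sInf (RSet t) + 8 := by
  have f1 := r_one
  have f2 : 3 ≤ sInf (RSet 2) := by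
    -- K_2
    have h2 := lower (s := 2) (⊤ : SimpleGraph (Fin 2)) (by
      intro a b c hab hbc hac
      rw [SimpleGraph.top_adj] at hab hbc hac
      omega) (by
      intro A hA
      by_contra hc
      push Not at hc
      obtain ⟨x, hx, y, hy, hxy⟩ := Finset.one_lt_card.mp (show 1 < A.card by omega)
      exact hA x hx y hy (by rw [SimpleGraph.top_adj]; exact hxy))
    rw [Fintype.card_fin] at h2
    omega
  have f3 : 6 ≤ sInf (RSet 3) := by
    have := xxer (s := 2) (k := 1) (by norm_num) (by norm_num)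
    norm_num at this
    omega
  have f4 : 9 ≤ sInf (RSet 4) := by
    have := xxer (s := 3) (k := 1) (by norm_num) (by norm_num)
    norm_num at this
    omega
  have f5 : 13 ≤ sInf (RSet 5) := by
    have := xxer (s := 3) (k := 2) (by norm_num) (by norm_num)
    norm_num at this
    omega
  have f9 : 29 ≤ sInf (RSet 9) := by
    have := xxer (s := 5) (k := 4) (by norm_num) (by norm_num)
    norm_num at this
    omega
  have f17 : 65 ≤ sInf (RSet 17) := by
    have := xxer (s := 9) (k := 8) (by norm_num) (by norm_num)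
    norm_num at this
    omega
  have f33 : 145 ≤ sInf (RSet 33) := by
    have := xxer (s := 17) (k := 16) (by norm_num) (by norm_num)
    norm_num at this
    omega
  have f65 : 321 ≤ sInf (RSet 65) := by
    have := xxer (s := 33) (k := 32) (by norm_num) (by norm_num)
    norm_num at this
    omega
  -- R(3,i+1) ≥ 4 i - 3
  have g : ∀ i : ℕ, 4 ≤ i → 4 * i ≤ sInf (RSet (i + 1)) + 3 := by
    intro i hi
    induction i, hi using Nat.le_induction with
    | base =>
      have e : 4 + 1 = 5 := rfl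
      rw [e]
      omega
    | succ n hn ih =>
      have := four (s := n + 1) (by omega)
      omega
  have g' : ∀ i : ℕ, 1 ≤ i → 4 * i ≤ sInf (RSet (i + 1)) + 3 := by
    intro i hi
    rcases Nat.lt_or_ge i 4 with h | h
    · interval_cases i
      · simpa using (by omega : 4 * 1 ≤ sInf (RSet 2) + 3)
      · simpa using (by omega : 4 * 2 ≤ sInf (RSet 3) + 3)
      · simpa using (by omega : 4 * 3 ≤ sInf (RSet 4) + 3)
    · exact g i h
  intro t
  induction t using Nat.strong_induction_on with
  | _ t ih =>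
    intro ht
    rcases Nat.lt_or_ge t 97 with h | h
    · rcases Nat.eq_or_lt_of_le ht with h0 | h0
      · rw [← h0]; omega
      · obtain ⟨i, rfl⟩ : ∃ i, t = 65 + i := ⟨t - 65, by omega⟩
        have h1 := xxer (s := 65) (k := i) (by norm_num) (by omega)
        have h2 := g' i (by omega)
        omega
    · obtain ⟨j, rfl⟩ : ∃ j, t = j + 32 := ⟨t - 32, by omega⟩
      have h1 := ih j (by omega) (by omega)
      have h2 := xxer (s := j) (k := 32) (by omega) (by omega)
      norm_num at h2
      omega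

/-- `R(3,s+k) ≥ R(3,s) + R(3,k+1) + k` for `s ≥ 4k + 64` -/
theorem plus' {s k : ℕ} (hk : 1 ≤ k) (hs : 4 * k + 64 ≤ s) :
    sInf (RSet s) + sInf (RSet (k + 1)) + k ≤ sInf (RSet (s + k)) := by
  apply plus (by omega) hk
  rcases Nat.lt_or_ge k 3 with h | h
  · interval_cases k
    · have h1 := five s (by omega)
      simp only [Nat.sub_self, r_zero]
      omega
    · have h1 := five s (by omega)
      simp only [Nat.add_one_sub_one, r_one]
      omega
  · obtain ⟨j, rfl⟩ : ∃ j, k = j + 2 := ⟨k - 2, by omega⟩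
    obtain ⟨t, rfl⟩ : ∃ t, s = t + j := ⟨s - j, by omega⟩
    have h1 := five t (by omega)
    have h2 := xxer (s := t) (k := j) (by omega) (by omega)
    have e : j + 2 - 1 = j + 1 := by omega
    rw [e]
    omega

end Pool.MP65cef3.R3
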