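import Mathlib
import Pool.Agent.Lib.MP_65cef3_co.Join

/-!
Upper bounds for windows of differences of R(3,s), part A: counting over the `k`-subsets of a
maximum independent set of an extremal graph.
-/

set_option autoImplicit false

namespace Pool.MP65cef3.R3

open Finset

/-- the induced subgraph outside the closed neighbourhood of an independent `k`-set has no
independent set of size `s - k` -/
theorem outside {V : Type*} [Fintype V] [DecidableEq V] {G : SimpleGraph V} {s k : ℕ}
    (hG : TF G) (hα : ∀ A : Finset V, Ind G A → A.card < s) (hks : k ≤ s)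
    (I A : Finset V) (hI : Ind G I) (hIk : I.card = k) (hd : Disjoint I A)
    (hA : ∀ x ∈ I, ∀ y ∈ A, ¬ G.Adj x y) : A.card < sInf (RSet (s - k)) := by
  classical
  have h := lower (s := s - k) (G.induce (A : Set V)) (by
      intro a b c hab hbc hac
      exact hG a b c hab hbc hac) (by
      intro B hB
      have h1 : Ind G (I ∪ B.map (Function.Embedding.subtype _)) := by
        intro x hx y hy hxy
        rcases Finset.mem_union.mp hx with hx | hx
        · rcases Finset.mem_union.mp hy with hy | hy
          · exact hI x hx y hy hxy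
          · obtain ⟨y', _, rfl⟩ := Finset.mem_map.mp hy
            exact hA x hx y'.1 y'.2 hxy
        · obtain ⟨x', hx', rfl⟩ := Finset.mem_map.mp hx
          rcases Finset.mem_union.mp hy with hy | hy
          · exact hA y hy x'.1 x'.2 hxy.symm
          · obtain ⟨y', hy', rfl⟩ := Finset.mem_map.mp hy
            exact hB x' hx' y' hy' hxy
      have h2 := hα _ h1
      have h3 : Disjoint I (B.map (Function.Embedding.subtype _)) := by
        rw [Finset.disjoint_left]
        intro x hx hx2
        obtain ⟨x', _, rfl⟩ := Finset.mem_map.mp hx2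
        exact (Finset.disjoint_left.mp hd) hx x'.2
      rw [Finset.card_union_of_disjoint h3, Finset.card_map] at h2
      omega)
  have hc : Fintype.card ((A : Set V) : Type _) = A.card := by simp
  rw [hc] at h
  exact h

/-- ratio of binomial coefficients -/
theorem choose_ratio {a k t : ℕ} (hk : k ≤ a) :
    (a.choose k : ℝ) * (max 0 (1 - (t : ℝ) / ((a : ℝ) - k + 1))) ^ k ≤ ((a - t).choose k : ℝ) := by
  have hka : (k : ℝ) ≤ a := by exact_mod_cast hk
  have hb : (0 : ℝ) < (a : ℝ) - k + 1 := by linarith
  by_cases ht : (a : ℝ) - k + 1 ≤ t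
  · have h1 : (1 : ℝ) - (t : ℝ) / ((a : ℝ) - k + 1) ≤ 0 := by
      rw [sub_nonpos, le_div_iff₀ hb]
      linarith
    rw [max_eq_left h1]
    rcases Nat.eq_zero_or_pos k with h0 | h0
    · subst h0
      simp
    · rw [zero_pow (by omega)]
      simp
  · push Not at ht
    have htn : t + k ≤ a := by
      have : (t : ℝ) + k < a + 1 := by linarith
      have h2 : ((t + k : ℕ) : ℝ) < ((a + 1 : ℕ) : ℝ) := by push_cast; linarith
      have h3 := Nat.cast_lt.mp h2
      omega
    have hz : (0 : ℝ) ≤ 1 - (t : ℝ) / ((a : ℝ) - k + 1) := by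
      rw [sub_nonneg, div_le_one hb]
      linarith
    rw [max_eq_right hz]
    -- descending factorials
    have key : ∀ j : ℕ, j ≤ k → (a.descFactorial j : ℝ) * (1 - (t : ℝ) / ((a : ℝ) - k + 1)) ^ j
        ≤ ((a - t).descFactorial j : ℝ) := by
      intro j
      induction j with
      | zero => intro _; simp
      | succ j ih =>
        intro hj
        have ih' := ih (by omega)
        rw [Nat.descFactorial_succ, Nat.descFactorial_succ]
        have hc1 : ((a - j : ℕ) : ℝ) = (a : ℝ) - j := by
          rw [Nat.cast_sub (by omega)]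
        have hc2 : ((a - t - j : ℕ) : ℝ) = (a : ℝ) - t - j := by
          rw [Nat.cast_sub (by omega), Nat.cast_sub (by omega)]
        push_cast
        rw [hc1, hc2]
        have hjk : (j : ℝ) + 1 ≤ k := by exact_mod_cast hj
        have htk : (t : ℝ) + k ≤ a := by exact_mod_cast htn
        have htp : (0 : ℝ) ≤ t := by positivity
        have hfac : ((a : ℝ) - j) * (1 - (t : ℝ) / ((a : ℝ) - k + 1)) ≤ (a : ℝ) - t - j := by
          have h4 : (t : ℝ) ≤ ((a : ℝ) - j) * ((t : ℝ) / ((a : ℝ) - k + 1)) := by
            rw [mul_div_assoc', le_div_iff₀ hb]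
            nlinarith
          nlinarith
        have hpos1 : (0 : ℝ) ≤ (a : ℝ) - t - j := by linarith
        have hpos2 : (0 : ℝ) ≤ (a : ℝ) - j := by linarith
        calc ((a : ℝ) - j) * (a.descFactorial j : ℝ) * (1 - (t : ℝ) / ((a : ℝ) - k + 1)) ^ (j + 1)
            = (((a : ℝ) - j) * (1 - (t : ℝ) / ((a : ℝ) - k + 1)))
              * ((a.descFactorial j : ℝ) * (1 - (t : ℝ) / ((a : ℝ) - k + 1)) ^ j) := by ring
          _ ≤ ((a : ℝ) - t - j) * ((a - t).descFactorial j : ℝ) := by
              apply mul_le_mul hfac ih' _ hpos1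
              positivity
    have hk2 := key k le_rfl
    have hf : (0 : ℝ) < (k.factorial : ℝ) := by exact_mod_cast Nat.factorial_pos k
    have e1 : (a.descFactorial k : ℝ) = (k.factorial : ℝ) * (a.choose k : ℝ) := by
      rw [Nat.descFactorial_eq_factorial_mul_choose]; push_cast; ring
    have e2 : ((a - t).descFactorial k : ℝ) = (k.factorial : ℝ) * ((a - t).choose k : ℝ) := by
      rw [Nat.descFactorial_eq_factorial_mul_choose]; push_cast; ring
    rw [e1, e2] at hk2
    have h5 : (k.factorial : ℝ) * ((a.choose k : ℝ) * (1 - (t : ℝ) / ((a : ℝ) - k + 1)) ^ k)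
        ≤ (k.factorial : ℝ) * ((a - t).choose k : ℝ) := by linarith
    exact le_of_mul_le_mul_left h5 hf

end Pool.MP65cef3.R3
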