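import Mathlib
import Pool.Agent.Lib.MP_65cef3_co.UpA

/-!
Upper bounds for windows of differences of R(3,s), part B: the main inequality.
-/

set_option autoImplicit false

namespace Pool.MP65cef3.R3

open Finset

/-- a triangle-free graph on `n` vertices, `R(3,s-1) ≤ n`, without independent `s`-set, has an
independent set of size `s - 1` -/
theorem max_ind {s n : ℕ} (hs : 1 ≤ s) (G : SimpleGraph (Fin n)) (hG : TF G)
    (hα : ∀ A : Finset (Fin n), Ind G A → A.card < s) (hn : sInf (RSet (s - 1)) ≤ n) :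
    ∃ J : Finset (Fin n), Ind G J ∧ J.card = s - 1 := by
  by_contra hc
  push Not at hc
  have h := lower (s := s - 1) G hG (by
    intro A hA
    have h1 := hα A hA
    have h2 := hc A hA
    omega)
  rw [Fintype.card_fin] at h
  omega

/-- counting form: the sum of `binom (a - t_w) k` over the vertices `w` outside `J` -/
theorem count {s k n : ℕ} (_hk : 1 ≤ k) (hks : k < s) (G : SimpleGraph (Fin n))
    [DecidableRel G.Adj] (hG : TF G)
    (hα : ∀ A : Finset (Fin n), Ind G A → A.card < s) (J : Finset (Fin n)) (hJ : Ind G J)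
    (hJc : J.card = s - 1) :
    ∑ w ∈ univ \ J, ((s - 1 - (J.filter (fun x => G.Adj x w)).card).choose k) + (s - k) * (s - 1).choose k
      ≤ (s - 1).choose k * sInf (RSet (s - k)) := by
  classical
  -- for each `I`
  have h1 : ∀ I ∈ J.powersetCard k,
      ((univ \ J).filter (fun w => ∀ x ∈ I, ¬ G.Adj x w)).card + (s - k) ≤ sInf (RSet (s - k)) := by
    intro I hI
    rw [Finset.mem_powersetCard] at hI
    obtain ⟨hIJ, hIk⟩ := hI
    have hd : Disjoint (J \ I) ((univ \ J).filter (fun w => ∀ x ∈ I, ¬ G.Adj x w)) := by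
      rw [Finset.disjoint_left]
      intro x hx hx2
      have a1 := (Finset.mem_sdiff.mp hx).1
      have a2 := (Finset.mem_sdiff.mp (Finset.mem_filter.mp hx2).1).2
      exact a2 a1
    have h2 := outside hG hα (by omega : k ≤ s) I
      ((J \ I) ∪ (univ \ J).filter (fun w => ∀ x ∈ I, ¬ G.Adj x w)) (hJ.mono hIJ) hIk (by
        rw [Finset.disjoint_left]
        intro x hx hx2
        rcases Finset.mem_union.mp hx2 with h | h
        · exact (Finset.mem_sdiff.mp h).2 hx
        · exact (Finset.mem_sdiff.mp (Finset.mem_filter.mp h).1).2 (hIJ hx)) (by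
        intro x hx y hy hxy
        rcases Finset.mem_union.mp hy with h | h
        · exact hJ x (hIJ hx) y (Finset.mem_sdiff.mp h).1 hxy
        · exact (Finset.mem_filter.mp h).2 x hx hxy)
    rw [Finset.card_union_of_disjoint hd, Finset.card_sdiff_of_subset hIJ, hJc, hIk] at h2
    omega
  have h2 := Finset.sum_le_sum h1
  rw [Finset.sum_add_distrib, Finset.sum_const, Finset.sum_const, Finset.card_powersetCard, hJc,
    smul_eq_mul, smul_eq_mul] at h2
  -- double counting
  have h3 : ∑ I ∈ J.powersetCard k, ((univ \ J).filter (fun w => ∀ x ∈ I, ¬ G.Adj x w)).card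
      = ∑ w ∈ univ \ J, ((s - 1 - (J.filter (fun x => G.Adj x w)).card).choose k) := by
    have e := Finset.sum_card_bipartiteAbove_eq_sum_card_bipartiteBelow (s := J.powersetCard k)
      (t := univ \ J) (fun I w => ∀ x ∈ I, ¬ G.Adj x w)
    unfold Finset.bipartiteAbove Finset.bipartiteBelow at e
    rw [e]
    apply Finset.sum_congr rfl
    intro w _
    have e2 : (J.powersetCard k).filter (fun I => ∀ x ∈ I, ¬ G.Adj x w)
        = (J.filter (fun x => ¬ G.Adj x w)).powersetCard k := by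
      ext I
      simp only [Finset.mem_filter, Finset.mem_powersetCard]
      constructor
      · rintro ⟨⟨a1, a2⟩, a3⟩
        refine ⟨?_, a2⟩
        intro x hx
        rw [Finset.mem_filter]
        exact ⟨a1 hx, a3 x hx⟩
      · rintro ⟨a1, a2⟩
        refine ⟨⟨fun x hx => (Finset.mem_filter.mp (a1 hx)).1, a2⟩, ?_⟩
        intro x hx
        exact (Finset.mem_filter.mp (a1 hx)).2
    rw [e2, Finset.card_powersetCard]
    have e3 := Finset.card_filter_add_card_filter_not (s := J) (fun x => G.Adj x w)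
    congr 1
    omega
  rw [h3] at h2
  calc _ = ∑ w ∈ univ \ J, ((s - 1 - (J.filter (fun x => G.Adj x w)).card).choose k)
        + (s - 1).choose k * (s - k) := by ring
    _ ≤ _ := h2

/-- the number of edges between `J` and its complement -/
theorem edges {s n : ℕ} (hs : 1 ≤ s) (G : SimpleGraph (Fin n)) [DecidableRel G.Adj] (hG : TF G)
    (hα : ∀ A : Finset (Fin n), Ind G A → A.card < s) (J : Finset (Fin n))
    (hJc : J.card = s - 1) :
    ∑ w ∈ univ \ J, (J.filter (fun x => G.Adj x w)).card ≤ (s - 1) * (s - 1) := by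
  classical
  have e := Finset.sum_card_bipartiteAbove_eq_sum_card_bipartiteBelow (s := J)
      (t := univ \ J) (fun x w => G.Adj x w)
  unfold Finset.bipartiteAbove Finset.bipartiteBelow at e
  rw [← e]
  calc _ ≤ ∑ _x ∈ J, (s - 1) := by
        apply Finset.sum_le_sum
        intro x _
        have h := hα ((univ \ J).filter (fun w => G.Adj x w)) (by
          intro y hy z hz hyz
          exact hG x y z (Finset.mem_filter.mp hy).2 hyz (Finset.mem_filter.mp hz).2)
        exact Nat.le_sub_one_of_lt h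
    _ = _ := by rw [Finset.sum_const, hJc, smul_eq_mul]

/-- main inequality -/
theorem window {s k : ℕ} (hk : 1 ≤ k) (hks : k < s)
    (hb : ((s : ℝ) - 1) ^ 2 ≤ ((sInf (RSet s) : ℕ) - (s : ℝ)) * ((s : ℝ) - k)) :
    (s : ℝ) - k + ((sInf (RSet s) : ℕ) - (s : ℝ))
      * (1 - ((s : ℝ) - 1) ^ 2 / (((sInf (RSet s) : ℕ) - (s : ℝ)) * ((s : ℝ) - k))) ^ k
      ≤ (sInf (RSet (s - k)) : ℕ) := by
  classical
  obtain ⟨r, hr⟩ : ∃ r, sInf (RSet s) = r := ⟨_, rfl⟩
  have hlt : sInf (RSet (s - 1)) < sInf (RSet s) := by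
    have := r_strict (s - 1)
    rwa [Nat.sub_add_cancel (by omega : 1 ≤ s)] at this
  rw [hr] at hlt
  obtain ⟨G, hG, hα⟩ := extremal (s := s) (n := r - 1) (by omega)
  obtain ⟨J, hJ, hJc⟩ := max_ind (by omega) G hG hα (by omega)
  have h1 := count hk hks G hG hα J hJ hJc
  have h2 := edges (by omega) G hG hα J hJc
  rw [hr] at hb
  rw [hr]
  have hks' : (k : ℝ) < s := by exact_mod_cast hks
  have hs2 : 2 ≤ s := by omega
  have hs2' : (2 : ℝ) ≤ s := by exact_mod_cast hs2
  have hb0 : (0 : ℝ) < (s : ℝ) - k := by linarith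
  have hNpos : (0 : ℝ) < (r : ℝ) - s := by
    by_contra hc
    push Not at hc
    have h3 : ((r : ℝ) - s) * ((s : ℝ) - k) ≤ 0 := mul_nonpos_of_nonpos_of_nonneg hc hb0.le
    nlinarith
  have hrs : s < r := by
    have : (s : ℝ) < r := by linarith
    exact_mod_cast this
  have hcard : (univ \ J : Finset (Fin (r - 1))).card = r - s := by
    rw [Finset.card_sdiff_of_subset (Finset.subset_univ _), Finset.card_univ, Fintype.card_fin, hJc]
    omega
  have hN : ((univ \ J : Finset (Fin (r - 1))).card : ℝ) = (r : ℝ) - s := by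
    rw [hcard, Nat.cast_sub hrs.le]
  set N : ℝ := (r : ℝ) - s with hNdef
  set a : ℕ := s - 1 with ha
  have har : (a : ℝ) = (s : ℝ) - 1 := by
    rw [ha, Nat.cast_sub (by omega)]; norm_num
  have hbb : (a : ℝ) - k + 1 = (s : ℝ) - k := by rw [har]; ring
  set z : Fin (r - 1) → ℝ := fun w =>
    max 0 (1 - ((J.filter (fun x => G.Adj x w)).card : ℝ) / ((a : ℝ) - k + 1)) with hz
  have hC : (0 : ℝ) < (a.choose k : ℝ) := by
    exact_mod_cast Nat.choose_pos (by omega)
  -- step 1
  have s1 : (a.choose k : ℝ) * ∑ w ∈ univ \ J, z w ^ k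
      ≤ (a.choose k : ℝ) * ((sInf (RSet (s - k)) : ℕ) - ((s : ℝ) - k)) := by
    rw [Finset.mul_sum]
    have h3 : ∑ w ∈ univ \ J, (a.choose k : ℝ) * z w ^ k
        ≤ ∑ w ∈ univ \ J, ((a - (J.filter (fun x => G.Adj x w)).card).choose k : ℝ) := by
      apply Finset.sum_le_sum
      intro w _
      exact choose_ratio (by omega)
    have h4 : (∑ w ∈ univ \ J, ((a - (J.filter (fun x => G.Adj x w)).card).choose k : ℝ))
        + ((s : ℝ) - k) * (a.choose k : ℝ) ≤ (a.choose k : ℝ) * (sInf (RSet (s - k)) : ℕ) := by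
      have h5 : ((∑ w ∈ univ \ J, ((a - (J.filter (fun x => G.Adj x w)).card).choose k)
        + (s - k) * a.choose k : ℕ) : ℝ) ≤ ((a.choose k * sInf (RSet (s - k)) : ℕ) : ℝ) := by
        exact_mod_cast h1
      push_cast at h5
      rw [Nat.cast_sub hks.le] at h5
      exact h5
    nlinarith
  have s2 : ∑ w ∈ univ \ J, z w ^ k ≤ (sInf (RSet (s - k)) : ℕ) - ((s : ℝ) - k) :=
    le_of_mul_le_mul_left s1 hC
  -- step 2
  obtain ⟨j, rfl⟩ : ∃ j, k = j + 1 := ⟨k - 1, by omega⟩
  have s3 := pow_sum_div_card_le_sum_pow (s := univ \ J) (f := z)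
    (fun w _ => le_max_left _ _) j
  rw [hN] at s3
  have s4 : N * (1 - ((s : ℝ) - 1) ^ 2 / (N * ((s : ℝ) - ((j + 1 : ℕ) : ℝ)))) ≤ ∑ w ∈ univ \ J, z w := by
    have h3 : ∑ w ∈ univ \ J, (1 - ((J.filter (fun x => G.Adj x w)).card : ℝ)
        / ((a : ℝ) - ((j + 1 : ℕ) : ℝ) + 1)) ≤ ∑ w ∈ univ \ J, z w :=
      Finset.sum_le_sum (fun w _ => le_max_right _ _)
    rw [Finset.sum_sub_distrib, ← Finset.sum_div, Finset.sum_const, nsmul_eq_mul, hN, mul_one,
      hbb] at h3
    have h4 : (∑ w ∈ univ \ J, ((J.filter (fun x => G.Adj x w)).card : ℝ)) ≤ (a : ℝ) * a := by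
      exact_mod_cast h2
    have h5 : (∑ w ∈ univ \ J, ((J.filter (fun x => G.Adj x w)).card : ℝ))
        / ((s : ℝ) - ((j + 1 : ℕ) : ℝ)) ≤ (a : ℝ) * a / ((s : ℝ) - ((j + 1 : ℕ) : ℝ)) :=
      div_le_div_of_nonneg_right h4 hb0.le
    have h6 : N * (1 - ((s : ℝ) - 1) ^ 2 / (N * ((s : ℝ) - ((j + 1 : ℕ) : ℝ))))
        = N - (a : ℝ) * a / ((s : ℝ) - ((j + 1 : ℕ) : ℝ)) := by
      rw [har]
      field_simp
    rw [h6]
    linarith
  have hx : 0 ≤ 1 - ((s : ℝ) - 1) ^ 2 / (N * ((s : ℝ) - ((j + 1 : ℕ) : ℝ))) := by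
    rw [sub_nonneg, div_le_one (by positivity)]
    exact hb
  have s5 : (N * (1 - ((s : ℝ) - 1) ^ 2 / (N * ((s : ℝ) - ((j + 1 : ℕ) : ℝ))))) ^ (j + 1) / N ^ j
      ≤ (∑ w ∈ univ \ J, z w) ^ (j + 1) / N ^ j := by
    apply div_le_div_of_nonneg_right _ (by positivity)
    exact pow_le_pow_left₀ (by positivity) s4 _
  have s6 : (N * (1 - ((s : ℝ) - 1) ^ 2 / (N * ((s : ℝ) - ((j + 1 : ℕ) : ℝ))))) ^ (j + 1) / N ^ j
      = N * (1 - ((s : ℝ) - 1) ^ 2 / (N * ((s : ℝ) - ((j + 1 : ℕ) : ℝ)))) ^ (j + 1) := by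
    rw [mul_pow, pow_succ N j]
    field_simp
  rw [s6] at s5
  linarith

end Pool.MP65cef3.R3
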