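import Mathlib
import Pool.Agent.Lib.MP_65cef3_co.UpB

/-!
Upper bounds for windows of differences of R(3,s), part G: the final inequality.
-/

set_option autoImplicit false

namespace Pool.MP65cef3.R3

open Finset

theorem bonf {x : ℝ} (_h0 : 0 ≤ x) (h1 : x ≤ 1) (k : ℕ) :
    1 - k * x + (k * (k - 1) / 2) * x ^ 2 - (k * (k - 1) * (k - 2) / 6) * x ^ 3 ≤ (1 - x) ^ k := by
  induction k with
  | zero => simp
  | succ k ih =>
    have hk : (0 : ℝ) ≤ (k : ℝ) * (k - 1) * (k - 2) := by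
      rcases Nat.lt_or_ge k 3 with h | h
      · interval_cases k <;> norm_num
      · have h3 : (3 : ℝ) ≤ k := by exact_mod_cast h
        have a1 : (0 : ℝ) ≤ (k : ℝ) - 1 := by linarith
        have a2 : (0 : ℝ) ≤ (k : ℝ) - 2 := by linarith
        positivity
    have hx : 0 ≤ 1 - x := by linarith
    have h2 := mul_le_mul_of_nonneg_right ih hx
    have h4 : 0 ≤ (k : ℝ) * (k - 1) * (k - 2) / 6 * x ^ 4 := by positivity
    have e1 : 1 - ((k + 1 : ℕ) : ℝ) * x + (((k + 1 : ℕ) : ℝ) * (((k + 1 : ℕ) : ℝ) - 1) / 2) * x ^ 2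
        - (((k + 1 : ℕ) : ℝ) * (((k + 1 : ℕ) : ℝ) - 1) * (((k + 1 : ℕ) : ℝ) - 2) / 6) * x ^ 3
        = (1 - k * x + (k * (k - 1) / 2) * x ^ 2 - (k * (k - 1) * (k - 2) / 6) * x ^ 3) * (1 - x)
          - (k : ℝ) * (k - 1) * (k - 2) / 6 * x ^ 4 := by
      push_cast
      ring
    rw [e1, pow_succ (1 - x) k]
    linarith

/-- the classical bound `Δ_s ≤ s` -/
theorem step {s : ℕ} (hs : 1 ≤ s) : sInf (RSet s) ≤ sInf (RSet (s - 1)) + s := by
  classical
  obtain ⟨r, hr⟩ : ∃ r, sInf (RSet s) = r := ⟨_, rfl⟩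
  rw [hr]
  rcases Nat.lt_or_ge r 2 with h2 | h2
  · omega
  obtain ⟨G, hG, hα⟩ := extremal (s := s) (n := r - 1) (by omega)
  obtain ⟨v⟩ : Nonempty (Fin (r - 1)) := ⟨⟨0, by omega⟩⟩
  have h := outside hG hα hs {v} (univ \ insert v (univ.filter (fun y => G.Adj v y))) (by
      intro a ha b hb hab
      rw [Finset.mem_singleton] at ha hb
      rw [ha, hb] at hab
      exact G.irrefl hab) (Finset.card_singleton v) (by
      rw [Finset.disjoint_singleton_left]
      intro hy
      exact (Finset.mem_sdiff.mp hy).2 (Finset.mem_insert_self _ _)) (by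
      intro a ha b hb hab
      rw [Finset.mem_singleton] at ha
      rw [ha] at hab
      apply (Finset.mem_sdiff.mp hb).2
      apply Finset.mem_insert_of_mem
      rw [Finset.mem_filter]
      exact ⟨Finset.mem_univ _, hab⟩)
  rw [Finset.card_sdiff_of_subset (Finset.subset_univ _), Finset.card_univ, Fintype.card_fin] at h
  have h3 : (insert v (univ.filter (fun y => G.Adj v y))).card
      ≤ (univ.filter (fun y => G.Adj v y)).card + 1 := Finset.card_insert_le _ _
  have h4 := hα (univ.filter (fun y => G.Adj v y)) (by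
    intro a ha b hb hab
    exact hG v a b (Finset.mem_filter.mp ha).2 hab (Finset.mem_filter.mp hb).2)
  omega

theorem steps {s k : ℕ} (hks : k ≤ s) :
    ((sInf (RSet s) : ℕ) : ℝ) - ((sInf (RSet (s - k)) : ℕ) : ℝ) ≤ k * s - k * (k - 1) / 2 := by
  induction k with
  | zero => simp
  | succ k ih =>
    have h1 := ih (by omega)
    have h2 := step (s := s - k) (by omega)
    have h3 : s - k - 1 = s - (k + 1) := by omega
    rw [h3] at h2
    have h4 : ((sInf (RSet (s - k)) : ℕ) : ℝ)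
        ≤ ((sInf (RSet (s - (k + 1))) : ℕ) : ℝ) + ((s - k : ℕ) : ℝ) := by exact_mod_cast h2
    rw [Nat.cast_sub (by omega)] at h4
    push_cast
    linarith

/-- the window inequality -/
theorem window' {s k : ℕ} (hk : 1 ≤ k) (hks0 : k ≤ s) (hks : 2 * k * s ≤ sInf (RSet s)) :
    ((sInf (RSet s) : ℕ) : ℝ) - ((sInf (RSet (s - k)) : ℕ) : ℝ)
      ≤ k * s - k * (k - 1) * ((s : ℝ) ^ 2 / (2 * ((sInf (RSet s) : ℕ) : ℝ))
          * (1 - k * s / ((sInf (RSet s) : ℕ) : ℝ)) - 3 / 2) := by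
  obtain ⟨r, hr⟩ : ∃ r, ((sInf (RSet s) : ℕ) : ℝ) = r := ⟨_, rfl⟩
  have hks' : 2 * (k : ℝ) * s ≤ r := by rw [← hr]; exact_mod_cast hks
  have hk1 : (1 : ℝ) ≤ k := by exact_mod_cast hk
  have hs1' : (1 : ℝ) ≤ s := by
    have : 1 ≤ s := by omega
    exact_mod_cast this
  have hr1 : 0 < r := by nlinarith
  have htriv := steps hks0
  have hkk : 0 ≤ (k : ℝ) * (k - 1) := mul_nonneg (by linarith) (by linarith)
  rw [hr] at htriv ⊢
  obtain ⟨κ, hκ⟩ : ∃ κ : ℝ, κ = k * s / r := ⟨_, rfl⟩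
  have hκ0 : 0 ≤ κ := by rw [hκ]; positivity
  have hκ1 : κ ≤ 1 / 2 := by
    rw [hκ, div_le_div_iff₀ hr1 (by norm_num)]
    linarith
  rw [← hκ]
  obtain ⟨σ, hσ⟩ : ∃ σ : ℝ, σ = (s : ℝ) ^ 2 / r := ⟨_, rfl⟩
  have hσ0 : 0 ≤ σ := by rw [hσ]; positivity
  have hσ2 : (s : ℝ) ^ 2 / (2 * r) = σ / 2 := by
    rw [hσ]; field_simp
  rw [hσ2]
  by_cases hk8 : 8 * (k : ℝ) ≤ s
  · rcases Nat.lt_or_ge 1 k with hk2 | hk2
    · -- main case
      have hk2' : (2 : ℝ) ≤ k := by exact_mod_cast hk2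
      have hks2 : k < s := by
        have h1 : (k : ℝ) < s := by linarith
        exact_mod_cast h1
      obtain ⟨a, ha⟩ : ∃ a : ℝ, a = (s : ℝ) - 1 := ⟨_, rfl⟩
      obtain ⟨N, hN⟩ : ∃ N : ℝ, N = r - s := ⟨_, rfl⟩
      obtain ⟨b, hb⟩ : ∃ b : ℝ, b = (s : ℝ) - k := ⟨_, rfl⟩
      have hrs4 : 4 * (s : ℝ) ≤ r := by nlinarith
      have hN34 : 3 / 4 * r ≤ N := by rw [hN]; linarith
      have hNpos : 0 < N := by linarith
      have hbpos : 0 < b := by rw [hb]; linarith
      have hb78 : 7 * (s : ℝ) ≤ 8 * b := by rw [hb]; linarith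
      have hba : b ≤ a := by rw [hb, ha]; linarith
      have hapos : 0 < a := by linarith
      have has : a ≤ s := by rw [ha]; linarith
      have hcond : a ^ 2 ≤ N * b := by
        have h4 : 3 * (s : ℝ) * b ≤ N * b := by
          apply mul_le_mul_of_nonneg_right _ hbpos.le
          rw [hN]; linarith
        nlinarith
      have hw := window hk hks2 (by rw [hr, ← ha, ← hN, ← hb]; exact hcond)
      rw [hr, ← ha, ← hN, ← hb] at hw
      obtain ⟨x, hx⟩ : ∃ x : ℝ, x = a ^ 2 / (N * b) := ⟨_, rfl⟩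
      rw [← hx] at hw
      have hNb : 0 < N * b := by positivity
      have hx0 : 0 ≤ x := by rw [hx]; positivity
      have hx1 : x ≤ 1 := by rw [hx, div_le_one hNb]; exact hcond
      have hNxb : N * x * b = a ^ 2 := by rw [hx]; field_simp
      have hbon := bonf hx0 hx1 k
      have hM1 : N * x ≤ a + (8 / 7) * ((k : ℝ) - 1) := by
        have h1 : N * x * b ≤ (a + (8 / 7) * ((k : ℝ) - 1)) * b := by
          rw [hNxb]
          have hab : a = b + ((k : ℝ) - 1) := by rw [ha, hb]; ring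
          have hk0 : 0 ≤ (k : ℝ) - 1 := by linarith
          have hab2 : a ≤ (8 / 7) * b := by rw [ha]; linarith
          nlinarith
        exact le_of_mul_le_mul_right h1 hbpos
      have hM2 : a ≤ N * x := by
        have h1 : a * b ≤ N * x * b := by rw [hNxb]; nlinarith
        exact le_of_mul_le_mul_right h1 hbpos
      have hM3 : a ^ 2 / N ≤ N * x ^ 2 := by
        rw [div_le_iff₀ hNpos]
        nlinarith
      -- the cubic term
      have h3 : ((k : ℝ) - 2) * x ≤ 3 * κ := by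
        have e1 : x ≤ 2 * (s / r) := by
          rw [hx, div_le_iff₀ hNb]
          have e2 : 3 / 4 * r * ((7 / 8) * s) ≤ N * b :=
            mul_le_mul hN34 (by linarith) (by positivity) hNpos.le
          have e3 : a ^ 2 ≤ (s : ℝ) ^ 2 := by nlinarith
          have e4 : 2 * ((s : ℝ) / r) * (3 / 4 * r * ((7 / 8) * s)) = (21 / 16) * (s : ℝ) ^ 2 := by
            field_simp
            ring
          have e5 : 2 * ((s : ℝ) / r) * (3 / 4 * r * ((7 / 8) * s)) ≤ 2 * ((s : ℝ) / r) * (N * b) :=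
            mul_le_mul_of_nonneg_left e2 (by positivity)
          have e6 : 0 ≤ (s : ℝ) ^ 2 := by positivity
          linarith
        have e7 : ((k : ℝ) - 2) * x ≤ ((k : ℝ) - 2) * (2 * (s / r)) :=
          mul_le_mul_of_nonneg_left e1 (by linarith)
        have e8 : κ = k * (s / r) := by rw [hκ]; ring
        have e9 : 0 ≤ (s : ℝ) / r := by positivity
        rw [e8]
        nlinarith
      have hP : 1 - κ ≤ 1 - ((k : ℝ) - 2) * x / 3 := by linarith
      have h4 : 0 ≤ (k : ℝ) * (k - 1) / 2 * x ^ 2 := by positivity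
      have hpow : 1 - k * x + (k * (k - 1) / 2) * x ^ 2 * (1 - κ) ≤ (1 - x) ^ k := by
        have h5 : 1 - k * x + (k * (k - 1) / 2) * x ^ 2 - (k * (k - 1) * (k - 2) / 6) * x ^ 3
            = 1 - k * x + (k * (k - 1) / 2) * x ^ 2 * (1 - ((k : ℝ) - 2) * x / 3) := by ring
        rw [h5] at hbon
        have h6 := mul_le_mul_of_nonneg_left hP h4
        linarith
      have hNpow : N * (1 - k * x + (k * (k - 1) / 2) * x ^ 2 * (1 - κ)) ≤ N * (1 - x) ^ k :=
        mul_le_mul_of_nonneg_left hpow hNpos.le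
      have hg1 : (k : ℝ) * (k - 1) * ((1 - κ) / 2 * (a ^ 2 / N))
          ≤ (k : ℝ) * (k - 1) * ((1 - κ) / 2 * (N * x ^ 2)) := by
        apply mul_le_mul_of_nonneg_left _ hkk
        apply mul_le_mul_of_nonneg_left hM3 (by linarith)
      have hg2 : (k : ℝ) * (N * x) ≤ (k : ℝ) * (a + (8 / 7) * ((k : ℝ) - 1)) :=
        mul_le_mul_of_nonneg_left hM1 (by linarith)
      have hg3 : σ - 1 / 2 ≤ a ^ 2 / N := by
        rw [le_div_iff₀ hNpos]
        have d1 : σ * r = (s : ℝ) ^ 2 := by rw [hσ]; field_simp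
        have d2 : σ * N ≤ σ * r := mul_le_mul_of_nonneg_left (by rw [hN]; linarith) hσ0
        have d3 : (s : ℝ) ^ 2 - 2 * s ≤ a ^ 2 := by rw [ha]; nlinarith
        have d4 : 2 * (s : ℝ) ≤ 1 / 2 * N + σ * s := by
          -- `σ N = σ r - σ s`; we only need `2 s ≤ N / 2 + σ s`
          have d5 : 3 * (s : ℝ) ≤ N := by rw [hN]; linarith
          have d6 : 1 / 2 ≤ σ := by
            by_contra hc
            push Not at hc
            -- then `s^2 < r / 2`, impossible since `r ≤ s (s+1) / 2`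
            have d7 := steps (le_refl s)
            rw [Nat.sub_self, r_zero, hr] at d7
            push_cast at d7
            have d8 : (s : ℝ) ^ 2 < 1 / 2 * r := by
              rw [← d1]
              exact mul_lt_mul_of_pos_right hc hr1
            nlinarith
          nlinarith
        have d9 : σ * N = (s : ℝ) ^ 2 - σ * s := by
          rw [← d1, hN]; ring
        nlinarith
      have hg4 : (k : ℝ) * (k - 1) * ((1 - κ) / 2 * (σ - 1 / 2))
          ≤ (k : ℝ) * (k - 1) * ((1 - κ) / 2 * (a ^ 2 / N)) := by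
        apply mul_le_mul_of_nonneg_left _ hkk
        apply mul_le_mul_of_nonneg_left hg3 (by linarith)
      have hg5 : (k : ℝ) * (k - 1) * (σ / 2 * (1 - κ) - 3 / 2)
          ≤ (k : ℝ) * (k - 1) * ((1 - κ) / 2 * (σ - 1 / 2) - 8 / 7) := by
        apply mul_le_mul_of_nonneg_left _ hkk
        nlinarith
      have hsa : (s : ℝ) = a + 1 := by rw [ha]; ring
      have hbk : b = (s : ℝ) - k := hb
      have hNs : r = N + s := by rw [hN]; ring
      have hex : N * (1 - k * x + (k * (k - 1) / 2) * x ^ 2 * (1 - κ))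
          = N - k * (N * x) + (k : ℝ) * (k - 1) * ((1 - κ) / 2 * (N * x ^ 2)) := by ring
      rw [hex] at hNpow
      have hfin : (k : ℝ) * (a + (8 / 7) * ((k : ℝ) - 1)) + k
          = k * s + (8 / 7) * ((k : ℝ) * (k - 1)) := by rw [hsa]; ring
      have hlast : (k : ℝ) * (k - 1) * ((1 - κ) / 2 * (σ - 1 / 2) - 8 / 7)
          = (k : ℝ) * (k - 1) * ((1 - κ) / 2 * (σ - 1 / 2)) - (8 / 7) * ((k : ℝ) * (k - 1)) := by
        ring
      linarith
    · have h2 : (k : ℝ) = 1 := by
        have : k = 1 := by omega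
        rw [this]; norm_num
      rw [h2] at htriv ⊢
      norm_num at htriv ⊢
      linarith
  · -- `k > s / 8` : the trivial bound is enough
    push Not at hk8
    have h1 : σ ≤ 4 := by
      rw [hσ, div_le_iff₀ hr1]
      nlinarith
    have h2 : σ / 2 * (1 - κ) - 3 / 2 ≤ 1 / 2 := by nlinarith
    have h3 := mul_le_mul_of_nonneg_left h2 hkk
    linarith

end Pool.MP65cef3.R3
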